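import Mathlib

set_option autoImplicit false

open Polynomial Filter Topology

namespace Pool.Agent.Results.MP_0a826e_ag.EllipticTimesLine

section Statement

/-- The complex projective line `ℂ ∪ {∞}`. -/
abbrev PLine : Type := OnePoint ℂ

/-- `P / Q` is a rational function of degree exactly `d`, in lowest terms. -/
structure IsRational (d : ℕ) (P Q : ℂ[X]) : Prop where
  coprime : IsCoprime P Q
  degP : P.natDegree ≤ d
  degQ : Q.natDegree ≤ d
  deg : P.natDegree = d ∨ Q.natDegree = d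

/-- The self-map of the projective line given by the rational function `P / Q` of degree `d`. -/
noncomputable def ratMap (d : ℕ) (P Q : ℂ[X]) (p : PLine) : PLine :=
  match p with
  | none => if Q.coeff d = 0 then OnePoint.infty else ((P.coeff d / Q.coeff d : ℂ) : PLine)
  | some x => if Q.eval x = 0 then OnePoint.infty else ((P.eval x / Q.eval x : ℂ) : PLine)

/-- The numerator `-x (x² - c)²`. -/
noncomputable def PP (c : ℂ) : ℂ[X] := -(X * (X ^ 2 - C c) ^ 2)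

/-- The denominator `(c x² - 1)²`. -/
noncomputable def QQ (c : ℂ) : ℂ[X] := (C c * X ^ 2 - 1) ^ 2

/-- The elliptic curve `E : y² = x³ - x`, its affine points and the point at infinity. -/
def E : Set (OnePoint (ℂ × ℂ)) :=
  {q | q = OnePoint.infty ∨ ∃ p : ℂ × ℂ, p.2 ^ 2 = p.1 ^ 3 - p.1 ∧ q = (p : OnePoint (ℂ × ℂ))}

/-- The `x`-coordinate `E → ℙ¹`. -/
def xCoord (q : OnePoint (ℂ × ℂ)) : PLine :=
  match q with
  | none => OnePoint.infty
  | some p => (p.1 : PLine)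

/-- The self-map
`(x, y) ↦ (-x (x² - c)² / (c x² - 1)², i y (x² - c) (x⁴ + (4c - 2) x² + 1) / (c x² - 1)³)`. -/
noncomputable def curveMap (c : ℂ) (q : OnePoint (ℂ × ℂ)) : OnePoint (ℂ × ℂ) :=
  match q with
  | none => OnePoint.infty
  | some p => if c * p.1 ^ 2 - 1 = 0 then OnePoint.infty else
      (((-(p.1 * (p.1 ^ 2 - c) ^ 2) / (c * p.1 ^ 2 - 1) ^ 2,
        Complex.I * p.2 * (p.1 ^ 2 - c) * (p.1 ^ 4 + (4 * c - 2) * p.1 ^ 2 + 1) /
          (c * p.1 ^ 2 - 1) ^ 3) : ℂ × ℂ) : OnePoint (ℂ × ℂ))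

/-- The surface `X = ℙ¹ × E`. -/
def XX : Set (PLine × OnePoint (ℂ × ℂ)) := {p | p.2 ∈ E}

/-- The curve `Y = {(x(q), q) : q ∈ E} ⊆ X`. -/
def YY : Set (PLine × OnePoint (ℂ × ℂ)) := {p | p.2 ∈ E ∧ p.1 = xCoord p.2}

/-- The self-map of `X = ℙ¹ × E`. -/
noncomputable def ff : PLine × OnePoint (ℂ × ℂ) → PLine × OnePoint (ℂ × ℂ) :=
  Prod.map (ratMap 5 (PP (1 + 2 * Complex.I)) (QQ (1 + 2 * Complex.I)))
    (curveMap (1 - 2 * Complex.I))

/-- The affine chart `(t, (x, y))` of `ℙ¹ × E`, where `y² = x³ - x`. -/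
def chart (s : ℂ × ℂ × ℂ) : PLine × OnePoint (ℂ × ℂ) := ((s.1 : PLine), (s.2 : OnePoint (ℂ × ℂ)))

/-- The tangent space of `X` at the affine point `s = (t, (x, y))`. -/
def TX (s : ℂ × ℂ × ℂ) : Set (ℂ × ℂ × ℂ) :=
  {w | 2 * s.2.2 * w.2.2 = (3 * s.2.1 ^ 2 - 1) * w.2.1}

/-- The tangent line of `Y` at the affine point `s = (x, (x, y))`. -/
def TY (s : ℂ × ℂ × ℂ) : Submodule ℂ (ℂ × ℂ × ℂ) where
  carrier := {w | w.1 = w.2.1 ∧ 2 * s.2.2 * w.2.2 = (3 * s.2.1 ^ 2 - 1) * w.2.1}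
  zero_mem' := by simp
  add_mem' := by
    rintro v w ⟨h1, h2⟩ ⟨h3, h4⟩
    refine ⟨by simp [h1, h3], ?_⟩
    simp only [Prod.snd_add, Prod.fst_add]
    linear_combination h2 + h4
  smul_mem' := by
    rintro c w ⟨h1, h2⟩
    refine ⟨by simp [h1], ?_⟩
    simp only [Prod.smul_snd, Prod.smul_fst, smul_eq_mul]
    linear_combination c * h2

/-- `x` is preperiodic for `F`. -/
def Preperiodic {Z : Type} (F : Z → Z) (x : Z) : Prop :=
  (Set.range fun k : ℕ => F^[k] x).Finite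

/-- Near the point `a` of the affine part of `X` the map `F` takes values in the affine part, and it
is there the restriction of a map `h` of the ambient affine space with `h a = b` and differential `D`
at `a`. So the differential `T_{X,a} → T_{X,b}` of `F` is the restriction of `D`. -/
def HasDifferential (F : PLine × OnePoint (ℂ × ℂ) → PLine × OnePoint (ℂ × ℂ)) (a b : ℂ × ℂ × ℂ)
    (D : ℂ × ℂ × ℂ →L[ℂ] ℂ × ℂ × ℂ) : Prop :=
  ∃ h : ℂ × ℂ × ℂ → ℂ × ℂ × ℂ,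
    (∀ᶠ s in 𝓝 a, chart s ∈ XX → F (chart s) = chart (h s)) ∧ h a = b ∧ HasFDerivAt h D a

/-- The `r`-dimensional subspace `W₀` of the tangent space of `X` at the affine point `x` is
preperiodic under the induced action of `F`: the orbit `a k` of `x` (which stays in the affine part)
and the images `W k ⊆ T_{X, a k}` of `W₀` under the differentials satisfy `dim (W k) = r` for all
`k`, and the pairs `(a k, W k)` take only finitely many values. -/
def TangentPreperiodic (F : PLine × OnePoint (ℂ × ℂ) → PLine × OnePoint (ℂ × ℂ)) (r : ℕ)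
    (x : ℂ × ℂ × ℂ) (W₀ : Submodule ℂ (ℂ × ℂ × ℂ)) : Prop :=
  ∃ (a : ℕ → ℂ × ℂ × ℂ) (D : ℕ → (ℂ × ℂ × ℂ →L[ℂ] ℂ × ℂ × ℂ))
    (W : ℕ → Submodule ℂ (ℂ × ℂ × ℂ)),
    a 0 = x ∧ W 0 = W₀ ∧
    (∀ k, chart (a k) ∈ XX ∧ (∀ w ∈ W k, w ∈ TX (a k)) ∧
      HasDifferential F (a k) (a (k + 1)) (D k) ∧
      W (k + 1) = (W k).map ((D k : ℂ × ℂ × ℂ →L[ℂ] ℂ × ℂ × ℂ) : ℂ × ℂ × ℂ →ₗ[ℂ] ℂ × ℂ × ℂ) ∧
      Module.finrank ℂ (W k) = r) ∧
    (Set.range fun k => (a k, W k)).Finite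

/-- `S` is Zariski dense in `Y`: every polynomial in `(t, x, y)` vanishing on `S` vanishes on the
whole affine part of `Y`. -/
def DenseInY (S : Set (ℂ × ℂ × ℂ)) : Prop :=
  ∀ G : MvPolynomial (Fin 3) ℂ, (∀ s ∈ S, MvPolynomial.eval ![s.1, s.2.1, s.2.2] G = 0) →
    ∀ s : ℂ × ℂ × ℂ, chart s ∈ YY → MvPolynomial.eval ![s.1, s.2.1, s.2.2] G = 0

end Statement

section Map

/-- the map on the projective line -/
noncomputable def fm (a : ℂ) : PLine → PLine := ratMap 5 (PP a) (QQ a)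

/-- the map on the affine line -/
noncomputable def g (a x : ℂ) : ℂ := -(x * (x ^ 2 - a) ^ 2) / (a * x ^ 2 - 1) ^ 2

lemma PP_eval (a x : ℂ) : (PP a).eval x = -(x * (x ^ 2 - a) ^ 2) := by
  simp [PP]

lemma QQ_eval (a x : ℂ) : (QQ a).eval x = (a * x ^ 2 - 1) ^ 2 := by
  simp [QQ]

lemma QQ_natDegree (a : ℂ) : (QQ a).natDegree ≤ 4 := by
  unfold QQ
  refine natDegree_pow_le.trans ?_
  have : (C a * X ^ 2 - 1 : ℂ[X]).natDegree ≤ 2 := by compute_degree
  omega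

lemma QQ_coeff (a : ℂ) : (QQ a).coeff 5 = 0 :=
  coeff_eq_zero_of_natDegree_lt (lt_of_le_of_lt (QQ_natDegree a) (by norm_num))

lemma PP_natDegree (a : ℂ) : (PP a).natDegree = 5 := by
  unfold PP
  rw [natDegree_neg, natDegree_mul X_ne_zero, natDegree_pow, natDegree_X_pow_sub_C, natDegree_X]
  exact pow_ne_zero 2 (X_pow_sub_C_ne_zero (by norm_num) a)

lemma fm_infty (a : ℂ) : fm a OnePoint.infty = OnePoint.infty := by
  show (if (QQ a).coeff 5 = 0 then OnePoint.infty else _ : PLine) = _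
  rw [if_pos (QQ_coeff a)]

lemma fm_coe (a x : ℂ) : fm a (x : PLine) =
    if (a * x ^ 2 - 1) ^ 2 = 0 then OnePoint.infty else ((g a x : ℂ) : PLine) := by
  show (if (QQ a).eval x = 0 then OnePoint.infty else
    (((PP a).eval x / (QQ a).eval x : ℂ) : PLine)) = _
  rw [QQ_eval, PP_eval]
  rfl

lemma fm_coe_of_ne {a x : ℂ} (h : a * x ^ 2 - 1 ≠ 0) : fm a (x : PLine) = ((g a x : ℂ) : PLine) := by
  rw [fm_coe, if_neg (pow_ne_zero 2 h)]

/-- the point with homogeneous coordinates `(x : y)` -/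
noncomputable def pt (x y : ℂ) : PLine := if y = 0 then OnePoint.infty else ((x / y : ℂ) : PLine)

lemma fm_pt (a x y : ℂ) : fm a (pt x y) =
    pt (-(x * (x ^ 2 - a * y ^ 2) ^ 2)) (y * (a * x ^ 2 - y ^ 2) ^ 2) := by
  by_cases hy : y = 0
  · simp [pt, hy, fm_infty]
  · have h1 : pt x y = ((x / y : ℂ) : PLine) := if_neg hy
    rw [h1, fm_coe]
    have h2 : a * (x / y) ^ 2 - 1 = (a * x ^ 2 - y ^ 2) / y ^ 2 := by
      field_simp
    by_cases h3 : a * x ^ 2 - y ^ 2 = 0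
    · rw [h2, h3]
      simp [pt]
    · have h4 : (a * (x / y) ^ 2 - 1) ^ 2 ≠ 0 := by
        rw [h2]
        exact pow_ne_zero 2 (div_ne_zero h3 (pow_ne_zero 2 hy))
      have h5 : y * (a * x ^ 2 - y ^ 2) ^ 2 ≠ 0 := mul_ne_zero hy (pow_ne_zero 2 h3)
      rw [if_neg h4]
      unfold pt
      rw [if_neg h5]
      congr 1
      unfold g
      rw [h2]
      field_simp

lemma exists_pt (p : PLine) : ∃ x y : ℂ, p = pt x y := by
  induction p using OnePoint.rec with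
  | infty => exact ⟨1, 0, by simp [pt]⟩
  | coe x => exact ⟨x, 1, by simp [pt]⟩

variable {a b : ℂ}

lemma comm_aux1 (ha : a ^ 2 = 2 * a - 5) (hb : b = 2 - a) (u v : ℂ) :
    (u - b * v) * (u * (u - b * v) ^ 4 - a * v * (b * u - v) ^ 4) =
      (u - a * v) * (u * (u - a * v) ^ 4 - b * v * (a * u - v) ^ 4) := by
  subst hb
  linear_combination (-2*a^3*u^5*v + 8*a^3*u^4*v^2 - 8*a^3*u^3*v^3 + 2*a^3*u*v^5 + 6*a^2*u^5*v
    - 24*a^2*u^4*v^2 + 24*a^2*u^3*v^3 - 6*a^2*u*v^5 - 2*a*u^5*v + 8*a*u^4*v^2 - 16*a*u^2*v^4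
    + 10*a*u*v^5 - 2*u^5*v + 8*u^4*v^2 - 16*u^3*v^3 + 16*u^2*v^4 - 6*u*v^5) * ha

lemma comm_aux2 (ha : a ^ 2 = 2 * a - 5) (hb : b = 2 - a) (u v : ℂ) :
    (b * u - v) * (a * u * (u - b * v) ^ 4 - v * (b * u - v) ^ 4) =
      (a * u - v) * (b * u * (u - a * v) ^ 4 - v * (a * u - v) ^ 4) := by
  subst hb
  linear_combination (2*a^3*u^5*v - 8*a^3*u^3*v^3 + 8*a^3*u^2*v^4 - 2*a^3*u*v^5 - 6*a^2*u^5*v
    + 24*a^2*u^3*v^3 - 24*a^2*u^2*v^4 + 6*a^2*u*v^5 + 10*a*u^5*v - 16*a*u^4*v^2 + 8*a*u^2*v^4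
    - 2*a*u*v^5 - 6*u^5*v + 16*u^4*v^2 - 16*u^3*v^3 + 8*u^2*v^4 - 2*u*v^5) * ha

lemma fm_comm (ha : a ^ 2 = 2 * a - 5) (hb : b = 2 - a) (p : PLine) :
    fm a (fm b p) = fm b (fm a p) := by
  obtain ⟨x, y, rfl⟩ := exists_pt p
  rw [fm_pt, fm_pt, fm_pt, fm_pt]
  have h1 := comm_aux1 ha hb (x ^ 2) (y ^ 2)
  have h2 := comm_aux2 ha hb (x ^ 2) (y ^ 2)
  congr 1
  · calc _ = x * ((x ^ 2 - b * y ^ 2) * (x ^ 2 * (x ^ 2 - b * y ^ 2) ^ 4 -
          a * y ^ 2 * (b * x ^ 2 - y ^ 2) ^ 4)) ^ 2 := by ring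
      _ = x * ((x ^ 2 - a * y ^ 2) * (x ^ 2 * (x ^ 2 - a * y ^ 2) ^ 4 -
          b * y ^ 2 * (a * x ^ 2 - y ^ 2) ^ 4)) ^ 2 := by rw [h1]
      _ = _ := by ring
  · calc _ = y * ((b * x ^ 2 - y ^ 2) * (a * x ^ 2 * (x ^ 2 - b * y ^ 2) ^ 4 -
          y ^ 2 * (b * x ^ 2 - y ^ 2) ^ 4)) ^ 2 := by ring
      _ = y * ((a * x ^ 2 - y ^ 2) * (b * x ^ 2 * (x ^ 2 - a * y ^ 2) ^ 4 -
          y ^ 2 * (a * x ^ 2 - y ^ 2) ^ 4)) ^ 2 := by rw [h2]
      _ = _ := by ring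

lemma a_facts (ha : a ^ 2 = 2 * a - 5) (hb : b = 2 - a) :
    a ≠ 0 ∧ a ^ 2 ≠ 1 ∧ a ≠ 1 ∧ a * b = 5 ∧ b ^ 2 = 2 * b - 5 ∧ a = 2 - b := by
  have h1 : a ≠ 0 := by
    rintro rfl
    norm_num at ha
  have h2 : a ^ 2 ≠ 1 := by
    intro h
    rw [h] at ha
    have h3 : a = 3 := by linear_combination (-1 / 2 : ℂ) * ha
    rw [h3] at h
    norm_num at h
  refine ⟨h1, h2, ?_, ?_, ?_, ?_⟩
  · rintro rfl
    norm_num at h2
  · rw [hb]; linear_combination -ha
  · rw [hb]; linear_combination ha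
  · rw [hb]; ring

lemma coprime_PP_QQ (ha : a ^ 2 = 2 * a - 5) : IsCoprime (PP a) (QQ a) := by
  have h2 : 1 - a ^ 2 ≠ 0 := by
    have := (a_facts ha rfl).2.1
    intro h
    exact this (by linear_combination -h)
  have h1 : IsCoprime (X : ℂ[X]) (C a * X ^ 2 - 1) := ⟨C a * X, -1, by ring⟩
  have h3 : IsCoprime (X ^ 2 - C a : ℂ[X]) (C a * X ^ 2 - 1) := by
    refine ⟨C (a / (1 - a ^ 2)), -C (1 / (1 - a ^ 2)), ?_⟩
    have e1 : (C (a / (1 - a ^ 2)) : ℂ[X]) = C a * C (1 / (1 - a ^ 2)) := by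
      rw [← C_mul]; congr 1; ring
    have e2 : (C (1 / (1 - a ^ 2)) : ℂ[X]) * (1 - C a ^ 2) = 1 := by
      rw [← C_pow, ← C_1, ← C_sub, ← C_mul]
      congr 1
      field_simp
    rw [e1]
    linear_combination e2
  unfold PP QQ
  exact ((h1.pow_right).mul_left ((h3.pow_left).pow_right)).neg_left

lemma isRational (ha : a ^ 2 = 2 * a - 5) : IsRational 5 (PP a) (QQ a) where
  coprime := coprime_PP_QQ ha
  degP := (PP_natDegree a).le
  degQ := (QQ_natDegree a).trans (by norm_num)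
  deg := Or.inl (PP_natDegree a)

lemma root_ne (a w : ℂ) : PP a - C w * QQ a ≠ 0 ∧
    (PP a - C w * QQ a).degree ≠ 0 := by
  have h1 : (PP a - C w * QQ a).coeff 5 ≠ 0 := by
    rw [coeff_sub, coeff_C_mul, QQ_coeff, mul_zero, sub_zero]
    have : (PP a).coeff 5 = (PP a).leadingCoeff := by
      rw [leadingCoeff, PP_natDegree]
    rw [this]
    refine leadingCoeff_ne_zero.2 fun h => ?_
    have h2 := PP_natDegree a
    rw [h] at h2
    norm_num at h2
  have h2 : 5 ≤ (PP a - C w * QQ a).natDegree := le_natDegree_of_ne_zero h1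
  refine ⟨fun h => ?_, fun h => ?_⟩
  · rw [h] at h1; exact h1 (coeff_zero 5)
  · have := natDegree_eq_of_degree_eq_some (n := 0) (by exact_mod_cast h)
    omega

/-- the map is onto the affine line -/
lemma surj (ha : a ^ 2 = 2 * a - 5) (w : ℂ) : ∃ z : ℂ, a * z ^ 2 - 1 ≠ 0 ∧ g a z = w := by
  obtain ⟨z, hz⟩ := IsAlgClosed.exists_root _ (root_ne a w).2
  have hz' : -(z * (z ^ 2 - a) ^ 2) - w * (a * z ^ 2 - 1) ^ 2 = 0 := by
    have := hz
    rw [IsRoot, eval_sub, eval_mul, eval_C, PP_eval, QQ_eval] at this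
    exact this
  have hne : a * z ^ 2 - 1 ≠ 0 := by
    intro h
    rw [h] at hz'
    have h1 : z * (z ^ 2 - a) ^ 2 = 0 := by linear_combination -hz'
    rcases mul_eq_zero.1 h1 with h2 | h2
    · rw [h2] at h; norm_num at h
    · have h3 : z ^ 2 - a = 0 := by simpa using h2
      have h4 : z ^ 2 = a := by linear_combination h3
      rw [h4] at h
      exact (a_facts ha rfl).2.1 (by linear_combination h)
  refine ⟨z, hne, ?_⟩
  unfold g
  rw [div_eq_iff (pow_ne_zero 2 hne)]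
  linear_combination hz'

/-- fibres over affine points are finite -/
lemma fibre_finite (a w : ℂ) : {p : PLine | fm a p = (w : PLine)}.Finite := by
  have h1 : ((PP a - C w * QQ a).rootSet ℂ).Finite := rootSet_finite _ _
  refine (h1.image (fun z : ℂ => (z : PLine))).subset ?_
  intro p hp
  have hp' : fm a p = (w : PLine) := hp
  induction p using OnePoint.rec with
  | infty =>
    rw [fm_infty] at hp'
    exact absurd hp' (OnePoint.infty_ne_coe w)
  | coe x =>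
    rw [fm_coe] at hp'
    by_cases h0 : (a * x ^ 2 - 1) ^ 2 = 0
    · rw [if_pos h0] at hp'
      exact absurd hp' (OnePoint.infty_ne_coe w)
    · rw [if_neg h0] at hp'
      have h2 : g a x = w := OnePoint.coe_injective hp'
      refine ⟨x, ?_, rfl⟩
      rw [mem_rootSet]
      refine ⟨(root_ne a w).1, ?_⟩
      rw [coe_aeval_eq_eval, eval_sub, eval_mul, eval_C, PP_eval, QQ_eval]
      unfold g at h2
      rw [div_eq_iff h0] at h2
      linear_combination h2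

lemma iter_infty (a : ℂ) (n : ℕ) : (fm a)^[n] OnePoint.infty = OnePoint.infty :=
  Function.iterate_fixed (fm_infty a) n

lemma iter_fibre_finite (a w : ℂ) (n : ℕ) :
    {p : PLine | (fm a)^[n] p = (w : PLine)}.Finite := by
  induction n with
  | zero =>
    refine (Set.finite_singleton (w : PLine)).subset ?_
    intro p hp
    exact hp
  | succ n ih =>
    refine (Set.Finite.biUnion ih (t := fun q => {p : PLine | fm a p = q ∧ q ≠ OnePoint.infty})
      ?_).subset ?_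
    · intro q _
      induction q using OnePoint.rec with
      | infty => exact Set.finite_empty.subset (fun p hp => absurd rfl hp.2)
      | coe x => exact (fibre_finite a x).subset (fun p hp => hp.1)
    · intro p hp
      have hp' : (fm a)^[n + 1] p = (w : PLine) := hp
      rw [Function.iterate_succ_apply] at hp'
      simp only [Set.mem_iUnion]
      refine ⟨fm a p, hp', rfl, ?_⟩
      intro h
      rw [h, iter_infty] at hp'
      exact OnePoint.infty_ne_coe w hp'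

lemma fm_zero (a : ℂ) : fm a ((0 : ℂ) : PLine) = ((0 : ℂ) : PLine) := by
  have h : a * (0 : ℂ) ^ 2 - 1 ≠ 0 := by norm_num
  rw [fm_coe_of_ne h]
  simp [g]

lemma fm_root {r : ℂ} (ha : a ^ 2 = 2 * a - 5) (hr : r ^ 2 = a) :
    a * r ^ 2 - 1 ≠ 0 ∧ fm a (r : PLine) = ((0 : ℂ) : PLine) := by
  have h : a * r ^ 2 - 1 ≠ 0 := by
    rw [hr]
    intro h
    exact (a_facts ha rfl).2.1 (by linear_combination h)
  refine ⟨h, ?_⟩
  rw [fm_coe_of_ne h]
  simp [g, hr]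

lemma fm_root' {r : ℂ} (ha : a ^ 2 = 2 * a - 5) (hb : b = 2 - a) (hr : r ^ 2 = a) :
    fm b (r : PLine) = (r : PLine) := by
  have hab : a * b = 5 := (a_facts ha hb).2.2.2.1
  have h : b * r ^ 2 - 1 = 4 := by
    rw [hr]; linear_combination hab
  have h' : b * r ^ 2 - 1 ≠ 0 := by rw [h]; norm_num
  rw [fm_coe_of_ne h']
  congr 1
  unfold g
  rw [h, hr, hb]
  linear_combination (-r / 4) * ha

/-- the set `{0, 1, -1}` -/
def TT : Set PLine := {((0 : ℂ) : PLine), ((1 : ℂ) : PLine), ((-1 : ℂ) : PLine)}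

lemma fm_TT (ha : a ^ 2 = 2 * a - 5) {p : PLine} (hp : p ∈ TT) : fm a p ∈ TT := by
  have h1 : a - 1 ≠ 0 := sub_ne_zero.2 (a_facts ha rfl).2.2.1
  rcases hp with rfl | rfl | rfl
  · left; exact fm_zero a
  · right; right
    have h : a * (1 : ℂ) ^ 2 - 1 ≠ 0 := by simpa using h1
    show fm a ((1 : ℂ) : PLine) = ((-1 : ℂ) : PLine)
    rw [fm_coe_of_ne h]
    congr 1
    unfold g
    have : (1 : ℂ) ^ 2 - a = -(a - 1) := by ring
    rw [this]
    field_simp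
  · right; left
    have h : a * (-1 : ℂ) ^ 2 - 1 ≠ 0 := by simpa using h1
    show fm a ((-1 : ℂ) : PLine) = ((1 : ℂ) : PLine)
    rw [fm_coe_of_ne h]
    congr 1
    unfold g
    have : (-1 : ℂ) ^ 2 - a = -(a - 1) := by ring
    rw [this]
    have h2 : a * (-1 : ℂ) ^ 2 - 1 = a - 1 := by ring
    rw [h2]
    field_simp

lemma iter_TT (ha : a ^ 2 = 2 * a - 5) {p : PLine} (hp : p ∈ TT) (n : ℕ) :
    (fm a)^[n] p ∈ TT := by
  induction n with
  | zero => exact hp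
  | succ n ih => rw [Function.iterate_succ_apply']; exact fm_TT ha ih

lemma root_not_TT {r : ℂ} (ha : a ^ 2 = 2 * a - 5) (hr : r ^ 2 = a) : (r : PLine) ∉ TT := by
  obtain ⟨h0, h1, h2, -⟩ := a_facts ha rfl
  rintro (h | h | h)
  · have := OnePoint.coe_injective h
    rw [this] at hr
    exact h0 (by rw [← hr]; norm_num)
  · have := OnePoint.coe_injective h
    rw [this] at hr
    exact h2 (by rw [← hr]; norm_num)
  · have := OnePoint.coe_injective h
    rw [this] at hr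
    exact h2 (by rw [← hr]; norm_num)

/-- derivative of the affine map -/
noncomputable def gd (a x : ℂ) : ℂ :=
  -((x ^ 2 - a) * ((5 * x ^ 2 - a) * (a * x ^ 2 - 1) - 4 * a * x ^ 2 * (x ^ 2 - a))) /
    (a * x ^ 2 - 1) ^ 3

lemma hasDerivAt_g {x : ℂ} (h : a * x ^ 2 - 1 ≠ 0) : HasDerivAt (g a) (gd a x) x := by
  have h1 : HasDerivAt (fun x : ℂ => x ^ 2 - a) (2 * x) x := by
    simpa using (hasDerivAt_pow 2 x).sub_const a
  have h2 : HasDerivAt (fun x : ℂ => a * x ^ 2 - 1) (a * (2 * x)) x := by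
    simpa using ((hasDerivAt_pow 2 x).const_mul a).sub_const 1
  have h3 : HasDerivAt (fun x : ℂ => -(x * (x ^ 2 - a) ^ 2))
      (-(1 * (x ^ 2 - a) ^ 2 + x * (2 * (x ^ 2 - a) * (2 * x)))) x := by
    have h0 : HasDerivAt (fun x : ℂ => x) 1 x := hasDerivAt_id x
    refine ((h0.fun_mul (h1.fun_pow 2)).fun_neg).congr_deriv ?_
    push_cast
    ring
  have h4 : HasDerivAt (fun x : ℂ => (a * x ^ 2 - 1) ^ 2)
      (2 * (a * x ^ 2 - 1) * (a * (2 * x))) x := by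
    refine (h2.fun_pow 2).congr_deriv ?_
    push_cast
    ring
  have h5 := h3.div h4 (pow_ne_zero 2 h)
  refine h5.congr_deriv ?_
  unfold gd
  rw [div_eq_div_iff (pow_ne_zero 2 (pow_ne_zero 2 h)) (pow_ne_zero 3 h)]
  ring

lemma gd_root {r : ℂ} (hr : r ^ 2 = a) : gd a r = 0 := by
  simp [gd, hr]

end Map

section Main

variable {a b r : ℂ}

lemma fm_step {x y : ℂ} (h : fm a (x : PLine) = (y : PLine)) : a * x ^ 2 - 1 ≠ 0 ∧ g a x = y := by
  by_cases h0 : a * x ^ 2 - 1 = 0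
  · rw [fm_coe, h0] at h
    simp at h
  · rw [fm_coe_of_ne h0] at h
    exact ⟨h0, OnePoint.coe_injective h⟩

/-- `z` is a backward orbit of `r` -/
structure Back (a r : ℂ) (z : ℕ → ℂ) : Prop where
  zero : z 0 = r
  succ : ∀ n, fm a (z (n + 1) : PLine) = (z n : PLine)

lemma exists_back (ha : a ^ 2 = 2 * a - 5) (r : ℂ) : ∃ z : ℕ → ℂ, Back a r z := by
  choose s hs1 hs2 using surj ha
  refine ⟨fun n => Nat.rec r (fun _ w => s w) n, rfl, fun n => ?_⟩
  rw [fm_coe_of_ne (hs1 _)]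
  exact congrArg _ (hs2 _)

lemma Back.iter {z : ℕ → ℂ} (hz : Back a r z) (n k : ℕ) :
    (fm a)^[k] (z (n + k) : PLine) = (z n : PLine) := by
  induction k with
  | zero => rfl
  | succ k ih =>
    rw [Function.iterate_succ_apply, ← add_assoc, hz.succ]
    exact ih

lemma Back.iter' {z : ℕ → ℂ} (hz : Back a r z) (n : ℕ) :
    (fm a)^[n] (z n : PLine) = (r : PLine) := by
  have := hz.iter 0 n
  rw [zero_add, hz.zero] at this
  exact this

lemma iter_zero (a : ℂ) (n : ℕ) : (fm a)^[n] ((0 : ℂ) : PLine) = ((0 : ℂ) : PLine) :=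
  Function.iterate_fixed (fm_zero a) n

lemma r_ne (ha : a ^ 2 = 2 * a - 5) (hr : r ^ 2 = a) : r ≠ 0 := by
  rintro rfl
  exact (a_facts ha rfl).1 (by rw [← hr]; norm_num)

lemma Back.iter_succ {z : ℕ → ℂ} (hz : Back a r z) (ha : a ^ 2 = 2 * a - 5) (hr : r ^ 2 = a)
    (n : ℕ) : (fm a)^[n + 1] (z n : PLine) = ((0 : ℂ) : PLine) := by
  rw [Function.iterate_succ_apply', hz.iter', (fm_root ha hr).2]

lemma Back.ne_zero {z : ℕ → ℂ} (hz : Back a r z) (ha : a ^ 2 = 2 * a - 5) (hr : r ^ 2 = a)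
    (n : ℕ) : z n ≠ 0 := by
  intro h
  have h1 := hz.iter' n
  rw [h, iter_zero] at h1
  exact r_ne ha hr (OnePoint.coe_injective h1).symm

lemma Back.ne_root {z : ℕ → ℂ} (hz : Back a r z) (ha : a ^ 2 = 2 * a - 5) (hr : r ^ 2 = a)
    (n : ℕ) : z (n + 1) ≠ r := by
  intro h
  have h1 := hz.succ n
  rw [h, (fm_root ha hr).2] at h1
  exact hz.ne_zero ha hr n (OnePoint.coe_injective h1).symm

lemma Back.injective {z : ℕ → ℂ} (hz : Back a r z) (ha : a ^ 2 = 2 * a - 5) (hr : r ^ 2 = a) :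
    Function.Injective z := by
  have key : ∀ i j : ℕ, z i ≠ z (j + 1 + i) := by
    intro i j h
    have h1 := hz.iter (j + 1) i
    rw [← h, hz.iter'] at h1
    exact hz.ne_root ha hr j (OnePoint.coe_injective h1).symm
  intro i j hij
  rcases lt_trichotomy i j with h | h | h
  · obtain ⟨k, rfl⟩ := Nat.exists_eq_add_of_lt h
    have := key i k
    rw [show k + 1 + i = i + k + 1 by ring] at this
    exact absurd hij this
  · exact h
  · obtain ⟨k, rfl⟩ := Nat.exists_eq_add_of_lt h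
    have := key j k
    rw [show k + 1 + j = j + k + 1 by ring] at this
    exact absurd hij.symm this

lemma commute (ha : a ^ 2 = 2 * a - 5) (hb : b = 2 - a) (i j : ℕ) (p : PLine) :
    (fm a)^[i] ((fm b)^[j] p) = (fm b)^[j] ((fm a)^[i] p) := by
  have h : Function.Commute (fm a) (fm b) := fun p => fm_comm ha hb p
  exact (h.iterate_iterate i j) p

lemma iter_b_root (ha : a ^ 2 = 2 * a - 5) (hb : b = 2 - a) (hr : r ^ 2 = a) (k : ℕ) :
    (fm b)^[k] (r : PLine) = (r : PLine) :=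
  Function.iterate_fixed (fm_root' ha hb hr) k

lemma exists_coe {p : PLine} (h : p ≠ OnePoint.infty) : ∃ x : ℂ, p = (x : PLine) := by
  induction p using OnePoint.rec with
  | infty => exact absurd rfl h
  | coe x => exact ⟨x, rfl⟩


end Main

section Curve

variable {a b c r : ℂ}

/-- the second coordinate factor -/
noncomputable def kk (c x : ℂ) : ℂ :=
  Complex.I * (x ^ 2 - c) * (x ^ 4 + (4 * c - 2) * x ^ 2 + 1) / (c * x ^ 2 - 1) ^ 3

/-- the derivative of `kk` -/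
noncomputable def kd (c x : ℂ) : ℂ :=
  Complex.I * ((2 * x * (x ^ 4 + (4 * c - 2) * x ^ 2 + 1) +
    (x ^ 2 - c) * (4 * x ^ 3 + 2 * (4 * c - 2) * x)) * (c * x ^ 2 - 1) -
    6 * c * x * ((x ^ 2 - c) * (x ^ 4 + (4 * c - 2) * x ^ 2 + 1))) / (c * x ^ 2 - 1) ^ 4

lemma curveMap_infty (c : ℂ) : curveMap c OnePoint.infty = OnePoint.infty := rfl

lemma curveMap_coe (c : ℂ) (p : ℂ × ℂ) : curveMap c (p : OnePoint (ℂ × ℂ)) =
    if c * p.1 ^ 2 - 1 = 0 then OnePoint.infty else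
      (((g c p.1, p.2 * kk c p.1) : ℂ × ℂ) : OnePoint (ℂ × ℂ)) := by
  show (if c * p.1 ^ 2 - 1 = 0 then OnePoint.infty else
      (((-(p.1 * (p.1 ^ 2 - c) ^ 2) / (c * p.1 ^ 2 - 1) ^ 2,
        Complex.I * p.2 * (p.1 ^ 2 - c) * (p.1 ^ 4 + (4 * c - 2) * p.1 ^ 2 + 1) /
          (c * p.1 ^ 2 - 1) ^ 3) : ℂ × ℂ) : OnePoint (ℂ × ℂ))) = _
  have h : Complex.I * p.2 * (p.1 ^ 2 - c) * (p.1 ^ 4 + (4 * c - 2) * p.1 ^ 2 + 1) /
          (c * p.1 ^ 2 - 1) ^ 3 = p.2 * kk c p.1 := by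
    unfold kk
    ring
  rw [h]
  rfl

lemma kk_sq (hc : c ^ 2 = 2 * c - 5) {x : ℂ} (h : c * x ^ 2 - 1 ≠ 0) :
    (x ^ 3 - x) * kk c x ^ 2 = g c x ^ 3 - g c x := by
  unfold kk g
  rw [div_pow, div_pow, mul_div_assoc', ← pow_mul, ← pow_mul, div_sub_div _ _ (pow_ne_zero _ h)
    (pow_ne_zero _ h), div_eq_div_iff (pow_ne_zero _ h)
    (mul_ne_zero (pow_ne_zero _ h) (pow_ne_zero _ h))]
  have hI : Complex.I ^ 2 = -1 := Complex.I_sq
  have key : -(x ^ 3 * (x ^ 2 - c) ^ 6) + x * (x ^ 2 - c) ^ 2 * (c * x ^ 2 - 1) ^ 4 =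
      -((x ^ 3 - x) * (x ^ 2 - c) ^ 2 * (x ^ 4 + (4 * c - 2) * x ^ 2 + 1) ^ 2) := by
    linear_combination (1*c^4*x^9 - 1*c^4*x^3 - 2*c^3*x^11 + 2*c^3*x^9 - 4*c^3*x^7 + 6*c^3*x^5
      - 2*c^3*x^3 + 1*c^2*x^13 - 4*c^2*x^11 + 7*c^2*x^9 - 7*c^2*x^7 + 2*c^2*x^5 + 1*c^2*x^3
      + 2*c*x^13 - 2*c*x^11 + 2*c*x^7 - 2*c*x^5 - 1*x^13 + 2*x^11 - 2*x^9 + 1*x^7) * hc
  linear_combination (c * x ^ 2 - 1) ^ 8 * ((x ^ 3 - x) * (x ^ 2 - c) ^ 2 *
    (x ^ 4 + (4 * c - 2) * x ^ 2 + 1) ^ 2) * hI - (c * x ^ 2 - 1) ^ 8 * key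

lemma gd_eq (hc : c ^ 2 = 2 * c - 5) (x : ℂ) : gd c x = Complex.I * c * kk c x := by
  unfold gd kk
  rw [mul_div_assoc']
  congr 1
  have hI : Complex.I ^ 2 = -1 := Complex.I_sq
  have key : (5 * x ^ 2 - c) * (c * x ^ 2 - 1) - 4 * c * x ^ 2 * (x ^ 2 - c) =
      c * (x ^ 4 + (4 * c - 2) * x ^ 2 + 1) := by
    linear_combination (-x ^ 2) * hc
  rw [key]
  linear_combination -(c * (x ^ 2 - c) * (x ^ 4 + (4 * c - 2) * x ^ 2 + 1)) * hI

lemma kd_eq (hc : c ^ 2 = 2 * c - 5) {x : ℂ} (h : c * x ^ 2 - 1 ≠ 0) :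
    2 * (x ^ 3 - x) * kd c x + (3 * x ^ 2 - 1) * kk c x =
      Complex.I * c * (3 * g c x ^ 2 - 1) := by
  have key : 2 * (x ^ 3 - x) * ((2 * x * (x ^ 4 + (4 * c - 2) * x ^ 2 + 1) +
      (x ^ 2 - c) * (4 * x ^ 3 + 2 * (4 * c - 2) * x)) * (c * x ^ 2 - 1) -
      6 * c * x * ((x ^ 2 - c) * (x ^ 4 + (4 * c - 2) * x ^ 2 + 1))) +
      (3 * x ^ 2 - 1) * ((x ^ 2 - c) * (x ^ 4 + (4 * c - 2) * x ^ 2 + 1)) * (c * x ^ 2 - 1) =
      c * (3 * x ^ 2 * (x ^ 2 - c) ^ 4 - (c * x ^ 2 - 1) ^ 4) := by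
    linear_combination (1*c^3*x^8 - 3*c^3*x^2 + 2*c^2*x^8 - 4*c^2*x^6 + 12*c^2*x^4 - 6*c^2*x^2
      - 1*c*x^8 - 6*c*x^6 + 2*c*x^4 + 3*c*x^2 - 3*x^8 + 7*x^6 - 5*x^4 + 1*x^2) * hc
  have e1 : kk c x = Complex.I * ((x ^ 2 - c) * (x ^ 4 + (4 * c - 2) * x ^ 2 + 1)) *
      (c * x ^ 2 - 1) / (c * x ^ 2 - 1) ^ 4 := by
    unfold kk
    field_simp
  have e2 : g c x ^ 2 = x ^ 2 * (x ^ 2 - c) ^ 4 / (c * x ^ 2 - 1) ^ 4 := by
    unfold g
    rw [div_pow]
    congr 1 <;> ring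
  have e3 : (1 : ℂ) = (c * x ^ 2 - 1) ^ 4 / (c * x ^ 2 - 1) ^ 4 := (div_self (pow_ne_zero _ h)).symm
  have e4 : 3 * g c x ^ 2 - 1 = (3 * x ^ 2 * (x ^ 2 - c) ^ 4 - (c * x ^ 2 - 1) ^ 4) /
      (c * x ^ 2 - 1) ^ 4 := by
    rw [e2]
    nth_rewrite 2 [e3]
    ring
  rw [e4, e1]
  unfold kd
  rw [mul_div_assoc', mul_div_assoc', mul_div_assoc', ← add_div]
  congr 1
  linear_combination Complex.I * key

lemma hasDerivAt_kk {x : ℂ} (h : c * x ^ 2 - 1 ≠ 0) : HasDerivAt (kk c) (kd c x) x := by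
  have h1 : HasDerivAt (fun x : ℂ => x ^ 2 - c) (2 * x) x := by
    simpa using (hasDerivAt_pow 2 x).sub_const c
  have h2 : HasDerivAt (fun x : ℂ => c * x ^ 2 - 1) (c * (2 * x)) x := by
    simpa using ((hasDerivAt_pow 2 x).const_mul c).sub_const 1
  have h3 : HasDerivAt (fun x : ℂ => x ^ 4 + (4 * c - 2) * x ^ 2 + 1)
      (4 * x ^ 3 + (4 * c - 2) * (2 * x)) x := by
    simpa using ((hasDerivAt_pow 4 x).add ((hasDerivAt_pow 2 x).const_mul (4 * c - 2))).add_const 1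
  have h4 : HasDerivAt (fun x : ℂ => Complex.I * (x ^ 2 - c) * (x ^ 4 + (4 * c - 2) * x ^ 2 + 1))
      (Complex.I * (2 * x) * (x ^ 4 + (4 * c - 2) * x ^ 2 + 1) +
        Complex.I * (x ^ 2 - c) * (4 * x ^ 3 + (4 * c - 2) * (2 * x))) x :=
    (h1.const_mul Complex.I).fun_mul h3
  have h5 : HasDerivAt (fun x : ℂ => (c * x ^ 2 - 1) ^ 3)
      (3 * (c * x ^ 2 - 1) ^ 2 * (c * (2 * x))) x := by
    refine (h2.fun_pow 3).congr_deriv ?_
    push_cast
    ring
  refine (h4.div h5 (pow_ne_zero 3 h)).congr_deriv ?_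
  unfold kd
  rw [div_eq_div_iff (pow_ne_zero 2 (pow_ne_zero 3 h)) (pow_ne_zero 4 h)]
  ring

lemma mem_E_coe (p : ℂ × ℂ) : (p : OnePoint (ℂ × ℂ)) ∈ E ↔ p.2 ^ 2 = p.1 ^ 3 - p.1 := by
  constructor
  · rintro (h | ⟨q, hq, h⟩)
    · exact absurd h (OnePoint.coe_ne_infty p)
    · rw [OnePoint.coe_injective h]
      exact hq
  · intro h
    exact Or.inr ⟨p, h, rfl⟩

lemma curveMap_mem (hc : c ^ 2 = 2 * c - 5) {q : OnePoint (ℂ × ℂ)} (hq : q ∈ E) :
    curveMap c q ∈ E := by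
  induction q using OnePoint.rec with
  | infty => exact Or.inl rfl
  | coe p =>
    rw [mem_E_coe] at hq
    rw [curveMap_coe]
    split_ifs with h
    · exact Or.inl rfl
    · rw [mem_E_coe]
      show (p.2 * kk c p.1) ^ 2 = g c p.1 ^ 3 - g c p.1
      rw [← kk_sq hc h, ← hq]
      ring

lemma xCoord_curveMap (c : ℂ) (q : OnePoint (ℂ × ℂ)) :
    xCoord (curveMap c q) = fm c (xCoord q) := by
  induction q using OnePoint.rec with
  | infty =>
    show OnePoint.infty = fm c OnePoint.infty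
    rw [fm_infty]
  | coe p =>
    show _ = fm c (p.1 : PLine)
    rw [curveMap_coe, fm_coe]
    by_cases h : c * p.1 ^ 2 - 1 = 0
    · rw [if_pos h, if_pos (by rw [h]; norm_num)]
      rfl
    · rw [if_neg h, if_neg (pow_ne_zero 2 h)]
      rfl

lemma curve_iter_mem (hc : c ^ 2 = 2 * c - 5) {q : OnePoint (ℂ × ℂ)} (hq : q ∈ E) (k : ℕ) :
    (curveMap c)^[k] q ∈ E := by
  induction k with
  | zero => exact hq
  | succ k ih => rw [Function.iterate_succ_apply']; exact curveMap_mem hc ih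

lemma xCoord_iter (c : ℂ) (q : OnePoint (ℂ × ℂ)) (k : ℕ) :
    xCoord ((curveMap c)^[k] q) = (fm c)^[k] (xCoord q) := by
  induction k with
  | zero => rfl
  | succ k ih => rw [Function.iterate_succ_apply', Function.iterate_succ_apply', xCoord_curveMap, ih]

/-- general form of the map -/
noncomputable def FF (a b : ℂ) : PLine × OnePoint (ℂ × ℂ) → PLine × OnePoint (ℂ × ℂ) :=
  Prod.map (fm a) (curveMap b)

lemma FF_iter (a b : ℂ) (k : ℕ) (p : PLine × OnePoint (ℂ × ℂ)) :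
    (FF a b)^[k] p = ((fm a)^[k] p.1, (curveMap b)^[k] p.2) := by
  unfold FF
  rw [Prod.map_iterate]
  rfl

lemma not_preperiodic (ha : a ^ 2 = 2 * a - 5) (hb : b = 2 - a) (hr : r ^ 2 = a) {z : ℕ → ℂ}
    (hz : Back a r z) (m n : ℕ) (hn : 1 ≤ n) :
    (FF a b)^[m + n] '' YY ≠ (FF a b)^[m] '' YY := by
  intro h
  obtain ⟨k, rfl⟩ : ∃ k, n = k + 1 := ⟨n - 1, by omega⟩
  obtain ⟨y, hy⟩ := IsAlgClosed.exists_pow_nat_eq (z (k + m) ^ 3 - z (k + m)) (n := 2) (by norm_num)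
  have hmemY : ((z (k + m) : PLine), ((z (k + m), y) : OnePoint (ℂ × ℂ))) ∈ YY :=
    ⟨(mem_E_coe _).2 hy, rfl⟩
  have hmem : (FF a b)^[m + (k + 1)]
      ((z (k + m) : PLine), ((z (k + m), y) : OnePoint (ℂ × ℂ))) ∈ (FF a b)^[m] '' YY := by
    rw [← h]
    exact ⟨_, hmemY, rfl⟩
  obtain ⟨⟨w, q⟩, hw, hw2⟩ := hmem
  have hww : w = xCoord q := hw.2
  rw [FF_iter, FF_iter] at hw2
  have h1 : (fm a)^[m] w = (fm a)^[m + (k + 1)] (z (k + m) : PLine) := congrArg Prod.fst hw2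
  have h2 : (fm b)^[m] w = (fm b)^[m + (k + 1)] (z (k + m) : PLine) := by
    have h2' : (curveMap b)^[m] q = (curveMap b)^[m + (k + 1)] ((z (k + m), y) : OnePoint (ℂ × ℂ)) :=
      congrArg Prod.snd hw2
    have h2'' := congrArg xCoord h2'
    rw [xCoord_iter, xCoord_iter, ← hww] at h2''
    exact h2''
  have h3 : (fm a)^[m + (k + 1)] (z (k + m) : PLine) = ((0 : ℂ) : PLine) := by
    rw [show m + (k + 1) = (k + m) + 1 by ring]
    exact hz.iter_succ ha hr _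
  rw [h3] at h1
  have h4 : (fm a)^[m] ((fm b)^[m] w) = ((0 : ℂ) : PLine) := by
    rw [commute ha hb, h1, iter_zero]
  rw [h2, commute ha hb, hz.iter k m] at h4
  have h5 : (fm a)^[k] ((fm b)^[m + (k + 1)] (z k : PLine)) = (r : PLine) := by
    rw [commute ha hb, hz.iter', iter_b_root ha hb hr]
  rw [h4, iter_zero] at h5
  exact r_ne ha hr (OnePoint.coe_injective h5).symm

/-- the differential of the curve map -/
noncomputable def DE (c : ℂ) (p : ℂ × ℂ) : ℂ × ℂ →L[ℂ] ℂ × ℂ :=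
  (gd c p.1 • ContinuousLinearMap.fst ℂ ℂ ℂ).prod
    (p.2 • (kd c p.1 • ContinuousLinearMap.fst ℂ ℂ ℂ) + kk c p.1 • ContinuousLinearMap.snd ℂ ℂ ℂ)

lemma hasFDerivAt_curve {p : ℂ × ℂ} (h : c * p.1 ^ 2 - 1 ≠ 0) :
    HasFDerivAt (fun p : ℂ × ℂ => (g c p.1, p.2 * kk c p.1)) (DE c p) p := by
  have h1 : HasFDerivAt (fun p : ℂ × ℂ => g c p.1) (gd c p.1 • ContinuousLinearMap.fst ℂ ℂ ℂ) p :=
    (hasDerivAt_g h).comp_hasFDerivAt p hasFDerivAt_fst
  have h2 : HasFDerivAt (fun p : ℂ × ℂ => kk c p.1) (kd c p.1 • ContinuousLinearMap.fst ℂ ℂ ℂ) p :=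
    (hasDerivAt_kk h).comp_hasFDerivAt p hasFDerivAt_fst
  have h3 : HasFDerivAt (fun p : ℂ × ℂ => p.2) (ContinuousLinearMap.snd ℂ ℂ ℂ) p := hasFDerivAt_snd
  exact h1.prodMk (h3.mul h2)

/-- the invariant vector field -/
def VV (p : ℂ × ℂ) : ℂ × ℂ := (2 * p.2, 3 * p.1 ^ 2 - 1)

lemma DE_VV (hc : c ^ 2 = 2 * c - 5) {p : ℂ × ℂ} (h : c * p.1 ^ 2 - 1 ≠ 0)
    (hp : p.2 ^ 2 = p.1 ^ 3 - p.1) :
    DE c p (VV p) = (Complex.I * c) • VV (g c p.1, p.2 * kk c p.1) := by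
  ext
  · simp only [DE, VV, ContinuousLinearMap.prod_apply, _root_.smul_apply,
      ContinuousLinearMap.coe_fst', smul_eq_mul, Prod.smul_fst]
    rw [gd_eq hc]
    ring
  · simp only [DE, VV, ContinuousLinearMap.prod_apply, _root_.smul_apply,
      _root_.add_apply, ContinuousLinearMap.coe_snd',
      ContinuousLinearMap.coe_fst', smul_eq_mul, Prod.smul_snd]
    rw [← kd_eq hc h, ← hp]
    ring

lemma VV_ne {p : ℂ × ℂ} (hp : p.2 ^ 2 = p.1 ^ 3 - p.1) : VV p ≠ 0 := by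
  intro h
  have h1 : 2 * p.2 = 0 := congrArg Prod.fst h
  have h2 : 3 * p.1 ^ 2 - 1 = 0 := congrArg Prod.snd h
  have h3 : p.2 = 0 := by simpa using h1
  rw [h3] at hp
  have h4 : p.1 * (p.1 ^ 2 - 1) = 0 := by linear_combination -hp
  rcases mul_eq_zero.1 h4 with h5 | h5
  · rw [h5] at h2
    norm_num at h2
  · have h6 : (2 : ℂ) = 0 := by linear_combination h2 - 3 * h5
    norm_num at h6

lemma hasDiff {x : ℂ} {p : ℂ × ℂ} (hx : a * x ^ 2 - 1 ≠ 0) (hp : b * p.1 ^ 2 - 1 ≠ 0) :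
    HasDifferential (FF a b) (x, p) (g a x, (g b p.1, p.2 * kk b p.1))
      ((ContinuousLinearMap.toSpanSingleton ℂ (gd a x)).prodMap (DE b p)) := by
  refine ⟨Prod.map (g a) (fun p : ℂ × ℂ => (g b p.1, p.2 * kk b p.1)), ?_, rfl, ?_⟩
  · have h1 : ∀ᶠ s : ℂ × ℂ × ℂ in 𝓝 (x, p), a * s.1 ^ 2 - 1 ≠ 0 := by
      have hc : Continuous (fun s : ℂ × ℂ × ℂ => a * s.1 ^ 2 - 1) := by fun_prop
      exact hc.continuousAt.eventually_ne hx
    have h2 : ∀ᶠ s : ℂ × ℂ × ℂ in 𝓝 (x, p), b * s.2.1 ^ 2 - 1 ≠ 0 := by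
      have hc : Continuous (fun s : ℂ × ℂ × ℂ => b * s.2.1 ^ 2 - 1) := by fun_prop
      exact hc.continuousAt.eventually_ne hp
    filter_upwards [h1, h2] with s hs1 hs2 _
    show (fm a (s.1 : PLine), curveMap b (s.2 : OnePoint (ℂ × ℂ))) = _
    rw [fm_coe_of_ne hs1, curveMap_coe, if_neg hs2]
    rfl
  · exact HasFDerivAt.prodMap (x, p) (hasDerivAt_g hx).hasFDerivAt (hasFDerivAt_curve hp)

/-- the line spanned by a vector tangent to the line and a multiple of the invariant field -/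
noncomputable def LL (A B : ℂ) (p : ℂ × ℂ) : Submodule ℂ (ℂ × ℂ × ℂ) :=
  Submodule.span ℂ {((A, B • VV p) : ℂ × ℂ × ℂ)}

lemma map_LL (hb : b ^ 2 = 2 * b - 5) {p : ℂ × ℂ} (h : b * p.1 ^ 2 - 1 ≠ 0)
    (hp : p.2 ^ 2 = p.1 ^ 3 - p.1) (t A B : ℂ) :
    (LL A B p).map
      (((ContinuousLinearMap.toSpanSingleton ℂ t).prodMap (DE b p) :
        ℂ × ℂ × ℂ →L[ℂ] ℂ × ℂ × ℂ) : ℂ × ℂ × ℂ →ₗ[ℂ] ℂ × ℂ × ℂ) =
      LL (A * t) (B * (Complex.I * b)) (g b p.1, p.2 * kk b p.1) := by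
  unfold LL
  rw [Submodule.map_span, Set.image_singleton]
  congr 2
  show (A • t, DE b p (B • VV p)) = _
  rw [map_smul, DE_VV hb h hp, smul_smul]
  rfl

lemma TY_eq {s : ℂ × ℂ × ℂ} (hs : s.2.2 ≠ 0) : TY s = LL (2 * s.2.2) 1 s.2 := by
  ext w
  unfold LL
  rw [Submodule.mem_span_singleton]
  constructor
  · rintro ⟨h1, h2⟩
    refine ⟨w.2.1 / (2 * s.2.2), ?_⟩
    ext
    · simp only [Prod.smul_fst, smul_eq_mul]
      rw [h1]
      field_simp
    · simp only [VV, one_smul, Prod.smul_snd, Prod.smul_fst, smul_eq_mul]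
      field_simp
    · simp only [VV, one_smul, Prod.smul_snd, Prod.smul_fst, smul_eq_mul]
      field_simp
      linear_combination -h2
  · rintro ⟨t, rfl⟩
    refine ⟨?_, ?_⟩
    · simp [VV]
    · simp only [VV, one_smul, Prod.smul_snd, Prod.smul_fst, smul_eq_mul]
      ring

lemma y_finite (x : ℂ) : {y : ℂ | y ^ 2 = x ^ 3 - x}.Finite := by
  obtain ⟨y0, hy0⟩ := IsAlgClosed.exists_pow_nat_eq (x ^ 3 - x) (n := 2) (by norm_num)
  refine (Set.toFinite {y0, -y0}).subset ?_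
  intro y hy
  have hy' : y ^ 2 = x ^ 3 - x := hy
  have h : (y - y0) * (y + y0) = 0 := by linear_combination hy' - hy0
  rcases mul_eq_zero.1 h with h | h
  · left; linear_combination h
  · right
    show y = -y0
    linear_combination h

lemma point_finite {A : Set ℂ} (hA : A.Finite) :
    {p : ℂ × ℂ | p.1 ∈ A ∧ p.2 ^ 2 = p.1 ^ 3 - p.1}.Finite := by
  refine (hA.prod (hA.biUnion fun x _ => y_finite x)).subset ?_
  rintro p ⟨h1, h2⟩
  refine ⟨h1, ?_⟩
  simp only [Set.mem_iUnion]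
  exact ⟨p.1, h1, h2⟩

theorem main (ha : a ^ 2 = 2 * a - 5) (hb : b = 2 - a) (hr : r ^ 2 = a) {z : ℕ → ℂ}
    (hz : Back a r z) (n : ℕ) {y : ℂ} (hy : y ^ 2 = z n ^ 3 - z n) :
    Preperiodic (FF a b) (chart (z n, (z n, y))) ∧
    TangentPreperiodic (FF a b) 1 (z n, (z n, y)) (TY (z n, (z n, y))) := by
  have hb2 : b ^ 2 = 2 * b - 5 := (a_facts ha hb).2.2.2.2.1
  have hb0 : b ≠ 0 := (a_facts hb2 (show a = 2 - b by rw [hb]; ring)).1
  have hβ : Complex.I * b ≠ 0 := mul_ne_zero Complex.I_ne_zero hb0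
  have hU : ∀ k, (fm a)^[n + 1] ((fm a)^[k] (z n : PLine)) = ((0 : ℂ) : PLine) := by
    intro k
    rw [← Function.iterate_add_apply, add_comm, Function.iterate_add_apply,
      hz.iter_succ ha hr, iter_zero]
  have hV : ∀ k, (fm a)^[n] ((fm b)^[k] (z n : PLine)) = (r : PLine) := by
    intro k
    rw [commute ha hb, hz.iter', iter_b_root ha hb hr]
  have hE : ∀ k, (curveMap b)^[k] ((z n, y) : OnePoint (ℂ × ℂ)) ∈ E := by
    intro k
    exact curve_iter_mem hb2 ((mem_E_coe _).2 hy) k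
  have hX : ∀ k, xCoord ((curveMap b)^[k] ((z n, y) : OnePoint (ℂ × ℂ))) =
      (fm b)^[k] (z n : PLine) := by
    intro k
    rw [xCoord_iter]
    rfl
  have hu : ∀ k, ∃ u : ℂ, (fm a)^[k] (z n : PLine) = (u : PLine) := by
    intro k
    refine exists_coe fun h => ?_
    have := hU k
    rw [h, iter_infty] at this
    exact OnePoint.infty_ne_coe _ this
  have hq : ∀ k, ∃ q : ℂ × ℂ, (curveMap b)^[k] ((z n, y) : OnePoint (ℂ × ℂ)) =
      (q : OnePoint (ℂ × ℂ)) ∧ q.2 ^ 2 = q.1 ^ 3 - q.1 ∧ (fm b)^[k] (z n : PLine) = (q.1 : PLine) := by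
    intro k
    rcases hE k with h | ⟨q, h1, h2⟩
    · exfalso
      have h3 := hX k
      rw [h] at h3
      have h4 := hV k
      rw [← h3] at h4
      have h5 : xCoord OnePoint.infty = OnePoint.infty := rfl
      rw [h5, iter_infty] at h4
      exact OnePoint.infty_ne_coe _ h4
    · refine ⟨q, h2, h1, ?_⟩
      rw [← hX k, h2]
      rfl
  choose u hu using hu
  choose q hq1 hq2 hq3 using hq
  have hu0 : u 0 = z n := (OnePoint.coe_injective (hu 0)).symm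
  have hq0 : q 0 = (z n, y) := (OnePoint.coe_injective (hq1 0)).symm
  have hus : ∀ k, a * u k ^ 2 - 1 ≠ 0 ∧ g a (u k) = u (k + 1) := by
    intro k
    apply fm_step
    rw [← hu k, ← hu (k + 1), Function.iterate_succ_apply']
  have hqs : ∀ k, b * (q k).1 ^ 2 - 1 ≠ 0 ∧
      ((g b (q k).1, (q k).2 * kk b (q k).1) : ℂ × ℂ) = q (k + 1) := by
    intro k
    have h1 : curveMap b (q k : OnePoint (ℂ × ℂ)) = (q (k + 1) : OnePoint (ℂ × ℂ)) := by
      rw [← hq1 k, ← hq1 (k + 1), Function.iterate_succ_apply']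
    rw [curveMap_coe] at h1
    by_cases h0 : b * (q k).1 ^ 2 - 1 = 0
    · rw [if_pos h0] at h1
      exact absurd h1 (OnePoint.infty_ne_coe _)
    · rw [if_neg h0] at h1
      exact ⟨h0, OnePoint.coe_injective h1⟩
  have hun : u n = r := by
    have := hu n
    rw [hz.iter'] at this
    exact (OnePoint.coe_injective this).symm
  have hy0 : y ≠ 0 := by
    intro h0
    rw [h0] at hy
    have h1 : z n * ((z n - 1) * (z n + 1)) = 0 := by linear_combination -hy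
    have h2 : (z n : PLine) ∈ TT := by
      rcases mul_eq_zero.1 h1 with h | h
      · left; rw [h]
      · rcases mul_eq_zero.1 h with h | h
        · right; left; rw [show z n = 1 by linear_combination h]
        · right; right
          show (z n : PLine) = ((-1 : ℂ) : PLine)
          rw [show z n = -1 by linear_combination h]
    have h3 := iter_TT ha h2 n
    rw [hz.iter'] at h3
    exact root_not_TT ha hr h3
  -- finiteness
  have hfinU : {p : PLine | (fm a)^[n + 1] p = ((0 : ℂ) : PLine)}.Finite :=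
    iter_fibre_finite a 0 (n + 1)
  have hfinV : {p : PLine | (fm a)^[n] p = (r : PLine)}.Finite := iter_fibre_finite a r n
  have hfinU' : {x : ℂ | (fm a)^[n + 1] (x : PLine) = ((0 : ℂ) : PLine)}.Finite :=
    hfinU.preimage (f := fun x : ℂ => (x : PLine)) (OnePoint.coe_injective.injOn)
  have hfinV' : {x : ℂ | (fm a)^[n] (x : PLine) = (r : PLine)}.Finite :=
    hfinV.preimage (f := fun x : ℂ => (x : PLine)) (OnePoint.coe_injective.injOn)
  have hfin : ({x : ℂ | (fm a)^[n + 1] (x : PLine) = ((0 : ℂ) : PLine)} ×ˢ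
      {p : ℂ × ℂ | p.1 ∈ {x : ℂ | (fm a)^[n] (x : PLine) = (r : PLine)} ∧
        p.2 ^ 2 = p.1 ^ 3 - p.1}).Finite := hfinU'.prod (point_finite hfinV')
  have hmem : ∀ k, (u k, q k) ∈ ({x : ℂ | (fm a)^[n + 1] (x : PLine) = ((0 : ℂ) : PLine)} ×ˢ
      {p : ℂ × ℂ | p.1 ∈ {x : ℂ | (fm a)^[n] (x : PLine) = (r : PLine)} ∧
        p.2 ^ 2 = p.1 ^ 3 - p.1}) := by
    intro k
    refine ⟨?_, ?_, hq2 k⟩
    · show (fm a)^[n + 1] (u k : PLine) = _
      rw [← hu k]; exact hU k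
    · show (fm a)^[n] ((q k).1 : PLine) = _
      rw [← hq3 k]; exact hV k
  refine ⟨?_, ?_⟩
  · refine (hfin.image chart).subset ?_
    rintro _ ⟨k, rfl⟩
    refine ⟨(u k, q k), hmem k, ?_⟩
    show ((u k : PLine), (q k : OnePoint (ℂ × ℂ))) = (FF a b)^[k] _
    rw [FF_iter, ← hu k, ← hq1 k]
    rfl
  · let A : ℕ → ℂ := fun k => 2 * y * ∏ j ∈ Finset.range k, gd a (u j)
    let B : ℕ → ℂ := fun k => (Complex.I * b) ^ k
    have hB : ∀ k, B k ≠ 0 := fun k => pow_ne_zero k hβ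
    have hA : ∀ k, n < k → A k = 0 := by
      intro k hk
      have : ∏ j ∈ Finset.range k, gd a (u j) = 0 := by
        refine Finset.prod_eq_zero (Finset.mem_range.2 hk) ?_
        rw [hun]
        exact gd_root hr
      show 2 * y * _ = 0
      rw [this, mul_zero]
    refine ⟨fun k => (u k, q k),
      fun k => (ContinuousLinearMap.toSpanSingleton ℂ (gd a (u k))).prodMap (DE b (q k)),
      fun k => LL (A k) (B k) (q k), ?_, ?_, ?_, ?_⟩
    · show (u 0, q 0) = _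
      rw [hu0, hq0]
    · show LL (A 0) (B 0) (q 0) = _
      rw [TY_eq (s := (z n, (z n, y))) hy0, hq0]
      simp [A, B]
    · intro k
      refine ⟨?_, ?_, ?_, ?_, ?_⟩
      · exact (mem_E_coe _).2 (hq2 k)
      · intro w hw
        obtain ⟨t, rfl⟩ := Submodule.mem_span_singleton.1 hw
        show 2 * (q k).2 * (t • (B k • VV (q k))).2 = (3 * (q k).1 ^ 2 - 1) * (t • (B k • VV (q k))).1
        simp only [VV, Prod.smul_snd, Prod.smul_fst, smul_eq_mul]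
        ring
      · have := hasDiff (a := a) (b := b) (hus k).1 (hqs k).1
        rw [(hus k).2, (hqs k).2] at this
        exact this
      · show LL (A (k + 1)) (B (k + 1)) (q (k + 1)) = _
        rw [map_LL hb2 (hqs k).1 (hq2 k), (hqs k).2]
        have e1 : A (k + 1) = A k * gd a (u k) := by
          simp only [A, Finset.prod_range_succ]
          ring
        have e2 : B (k + 1) = B k * (Complex.I * b) := pow_succ _ _
        rw [e1, e2]
      · refine finrank_span_singleton ?_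
        intro h
        have h1 : B k • VV (q k) = 0 := congrArg Prod.snd h
        rcases smul_eq_zero.1 h1 with h2 | h2
        · exact hB k h2
        · exact VV_ne (hq2 k) h2
    · have hfin2 := hfin.image (fun s : ℂ × ℂ × ℂ => (s, LL 0 1 s.2))
      have hfin3 := (Set.finite_Iic n).image (fun k => ((u k, q k), LL (A k) (B k) (q k)))
      refine (hfin2.union hfin3).subset ?_
      rintro _ ⟨k, rfl⟩
      rcases le_or_gt k n with hk | hk
      · exact Or.inr ⟨k, hk, rfl⟩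
      · left
        refine ⟨(u k, q k), hmem k, ?_⟩
        show ((u k, q k), LL 0 1 (q k)) = ((u k, q k), LL (A k) (B k) (q k))
        rw [hA k hk]
        congr 1
        unfold LL
        have : ((0, B k • VV (q k)) : ℂ × ℂ × ℂ) = B k • (0, (1 : ℂ) • VV (q k)) := by simp
        rw [this]
        exact (Submodule.span_singleton_smul_eq (IsUnit.mk0 _ (hB k)) _).symm

/-- a polynomial in `(t, x, y)` restricted to the affine part of `Y` -/
lemma exists_AB (G : MvPolynomial (Fin 3) ℂ) : ∃ A B : ℂ[X], ∀ x y : ℂ, y ^ 2 = x ^ 3 - x →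
    MvPolynomial.eval ![x, x, y] G = A.eval x + y * B.eval x := by
  induction G using MvPolynomial.induction_on with
  | C c => exact ⟨C c, 0, fun x y _ => by simp⟩
  | add p q hp hq =>
    obtain ⟨A, B, h1⟩ := hp
    obtain ⟨A', B', h2⟩ := hq
    refine ⟨A + A', B + B', fun x y h => ?_⟩
    rw [map_add, h1 x y h, h2 x y h, eval_add, eval_add]
    ring
  | mul_X p i hp =>
    obtain ⟨A, B, h1⟩ := hp
    fin_cases i
    · refine ⟨A * X, B * X, fun x y h => ?_⟩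
      rw [map_mul, h1 x y h]
      simp
      ring
    · refine ⟨A * X, B * X, fun x y h => ?_⟩
      rw [map_mul, h1 x y h]
      simp
      ring
    · refine ⟨B * (X ^ 3 - X), A, fun x y h => ?_⟩
      rw [map_mul, h1 x y h]
      simp
      linear_combination (B.eval x) * h

lemma AB_zero {A B : ℂ[X]} (h : A ^ 2 = B ^ 2 * (X ^ 3 - X)) : A = 0 ∧ B = 0 := by
  have hX : (X ^ 3 - X : ℂ[X]).natDegree = 3 := by compute_degree!
  have hX0 : (X ^ 3 - X : ℂ[X]) ≠ 0 := by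
    intro h0
    rw [h0] at hX
    simp at hX
  by_cases hB : B = 0
  · rw [hB] at h
    refine ⟨?_, hB⟩
    have : A ^ 2 = 0 := by rw [h]; ring
    simpa using this
  · exfalso
    have h1 := congrArg natDegree h
    rw [natDegree_pow, natDegree_mul (pow_ne_zero 2 hB) hX0, natDegree_pow, hX] at h1
    omega

lemma dense {z y : ℕ → ℂ} (hz : Function.Injective z) (hy : ∀ n, y n ^ 2 = z n ^ 3 - z n) :
    DenseInY (Set.range fun n => (z n, (z n, y n))) := by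
  intro G hG s hs
  obtain ⟨A, B, hAB⟩ := exists_AB G
  have h0 : A ^ 2 - B ^ 2 * (X ^ 3 - X) = 0 := by
    refine Polynomial.eq_zero_of_infinite_isRoot _ ?_
    refine (Set.infinite_range_of_injective hz).mono ?_
    rintro _ ⟨n, rfl⟩
    show IsRoot _ (z n)
    have h1 : MvPolynomial.eval ![z n, z n, y n] G = 0 := hG (z n, (z n, y n)) ⟨n, rfl⟩
    rw [hAB _ _ (hy n)] at h1
    rw [IsRoot, eval_sub, eval_mul, eval_pow, eval_pow, eval_sub, eval_pow, eval_X, ← hy n]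
    linear_combination (A.eval (z n) - y n * B.eval (z n)) * h1
  obtain ⟨hA, hB⟩ := AB_zero (sub_eq_zero.1 h0)
  obtain ⟨t, x, y⟩ := s
  have h1 : y ^ 2 = x ^ 3 - x := (mem_E_coe (x, y)).1 hs.1
  have h2 : t = x := OnePoint.coe_injective hs.2
  show MvPolynomial.eval ![t, x, y] G = 0
  rw [h2, hAB x y h1, hA, hB]
  simp

end Curve

/-- On `X = ℙ¹ × E` the curve `Y = {(x(q), q)}` is not preperiodic under the polarizable map `ff`
although it has a Zariski dense set of preperiodic points at which its tangent line is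
preperiodic. -/
theorem result :
    IsRational 5 (PP (1 + 2 * Complex.I)) (QQ (1 + 2 * Complex.I)) ∧
    IsRational 5 (PP (1 - 2 * Complex.I)) (QQ (1 - 2 * Complex.I)) ∧
    (∀ q ∈ E, curveMap (1 - 2 * Complex.I) q ∈ E ∧ xCoord (curveMap (1 - 2 * Complex.I) q) =
      ratMap 5 (PP (1 - 2 * Complex.I)) (QQ (1 - 2 * Complex.I)) (xCoord q)) ∧
    (∀ m n : ℕ, 1 ≤ n → ff^[m + n] '' YY ≠ ff^[m] '' YY) ∧
    ∃ S : Set (ℂ × ℂ × ℂ), (∀ s ∈ S, chart s ∈ YY) ∧ DenseInY S ∧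
      ∀ s ∈ S, Preperiodic ff (chart s) ∧ TangentPreperiodic ff 1 s (TY s) := by
  have ha : (1 + 2 * Complex.I) ^ 2 = 2 * (1 + 2 * Complex.I) - 5 := by
    linear_combination (4 : ℂ) * Complex.I_sq
  have hb : (1 - 2 * Complex.I) = 2 - (1 + 2 * Complex.I) := by ring
  have hb2 : (1 - 2 * Complex.I) ^ 2 = 2 * (1 - 2 * Complex.I) - 5 := by
    linear_combination (4 : ℂ) * Complex.I_sq
  obtain ⟨r, hr⟩ : ∃ r : ℂ, r ^ 2 = 1 + 2 * Complex.I := IsAlgClosed.exists_pow_nat_eq _ (by norm_num)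
  obtain ⟨z, hz⟩ := exists_back ha r
  have hy : ∀ n, ∃ y : ℂ, y ^ 2 = z n ^ 3 - z n := fun n =>
    IsAlgClosed.exists_pow_nat_eq _ (by norm_num)
  choose y hy using hy
  refine ⟨isRational ha, isRational hb2, fun q hq => ⟨curveMap_mem hb2 hq, xCoord_curveMap _ q⟩,
    fun m n hn => not_preperiodic ha hb hr hz m n hn,
    Set.range fun n => (z n, (z n, y n)), ?_, dense (hz.injective ha hr) hy, ?_⟩
  · rintro _ ⟨n, rfl⟩
    exact ⟨(mem_E_coe _).2 (hy n), rfl⟩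
  · rintro _ ⟨n, rfl⟩
    exact main ha hb hr hz n (hy n)

end Pool.Agent.Results.MP_0a826e_ag.EllipticTimesLine
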