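import Mathlib

set_option autoImplicit false

open Polynomial Filter Topology

namespace Pool.Agent.Results.MP_0a826e_ag.LattesDiagonal

section Statement

/-- The complex projective line `ℂ ∪ {∞}`. -/
abbrev PLine : Type := OnePoint ℂ

/-- `P / Q` is a rational function of degree exactly `d`, in lowest terms. -/
structure IsRational (d : ℕ) (P Q : ℂ[X]) : Prop where
  coprime : IsCoprime P Q
  degP : P.natDegree ≤ d
  degQ : Q.natDegree ≤ d
  deg : P.natDegree = d ∨ Q.natDegree = d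

/-- The self-map of the projective line given by the rational function `P / Q` of degree `d`. -/
noncomputable def ratMap (d : ℕ) (P Q : ℂ[X]) (p : PLine) : PLine :=
  match p with
  | none => if Q.coeff d = 0 then OnePoint.infty else ((P.coeff d / Q.coeff d : ℂ) : PLine)
  | some x => if Q.eval x = 0 then OnePoint.infty else ((P.eval x / Q.eval x : ℂ) : PLine)

/-- The split self-map `(p, q) ↦ (P₁/Q₁ (p), P₂/Q₂ (q))` of `ℙ¹ × ℙ¹`. -/
noncomputable def splitMap (d : ℕ) (P₁ Q₁ P₂ Q₂ : ℂ[X]) : PLine × PLine → PLine × PLine :=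
  Prod.map (ratMap d P₁ Q₁) (ratMap d P₂ Q₂)

/-- The affine chart `ℂ × ℂ ⊆ ℙ¹ × ℙ¹`. -/
def chart (s : ℂ × ℂ) : PLine × PLine := ((s.1 : PLine), (s.2 : PLine))

/-- The diagonal `Y ⊆ ℙ¹ × ℙ¹`. -/
def Diag : Set (PLine × PLine) := {p | p.1 = p.2}

/-- `x` is preperiodic for `F`. -/
def Preperiodic {X : Type} (F : X → X) (x : X) : Prop :=
  (Set.range fun k : ℕ => F^[k] x).Finite

/-- Near the point `a` of the affine chart the map `F` takes values in the affine chart, it maps `a`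
to `b`, and its differential at `a` is `D : T_a = ℂ × ℂ → T_b = ℂ × ℂ`. -/
def HasDifferential (F : PLine × PLine → PLine × PLine) (a b : ℂ × ℂ)
    (D : ℂ × ℂ →L[ℂ] ℂ × ℂ) : Prop :=
  ∃ h : ℂ × ℂ → ℂ × ℂ, (∀ᶠ s in 𝓝 a, F (chart s) = chart (h s)) ∧ h a = b ∧ HasFDerivAt h D a

/-- The `r`-dimensional subspace `W₀` of the tangent space at the point `x` of the affine chart is
preperiodic under the induced action of `F`: the orbit `a k` of `x` (which stays in the affine
chart) and the images `W k` of `W₀` under the differentials satisfy `dim (W k) = r` for all `k`, and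
the pairs `(a k, W k)` take only finitely many values. -/
def TangentPreperiodic (F : PLine × PLine → PLine × PLine) (r : ℕ) (x : ℂ × ℂ)
    (W₀ : Submodule ℂ (ℂ × ℂ)) : Prop :=
  ∃ (a : ℕ → ℂ × ℂ) (D : ℕ → (ℂ × ℂ →L[ℂ] ℂ × ℂ)) (W : ℕ → Submodule ℂ (ℂ × ℂ)),
    a 0 = x ∧ W 0 = W₀ ∧
    (∀ k, HasDifferential F (a k) (a (k + 1)) (D k) ∧
      W (k + 1) = (W k).map ((D k : ℂ × ℂ →L[ℂ] ℂ × ℂ) : ℂ × ℂ →ₗ[ℂ] ℂ × ℂ) ∧
      Module.finrank ℂ (W k) = r) ∧
    (Set.range fun k => (a k, W k)).Finite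

/-- `S` is Zariski dense in the diagonal: every polynomial in two variables vanishing on `S` vanishes
on the whole affine part of the diagonal. -/
def DenseInDiag (S : Set (ℂ × ℂ)) : Prop :=
  ∀ G : MvPolynomial (Fin 2) ℂ, (∀ s ∈ S, MvPolynomial.eval ![s.1, s.2] G = 0) →
    ∀ z : ℂ, MvPolynomial.eval ![z, z] G = 0

end Statement

section Map

/-- numerator -/
noncomputable def PP (a : ℂ) : ℂ[X] := -(X * (X ^ 2 - C a) ^ 2)

/-- denominator -/
noncomputable def QQ (a : ℂ) : ℂ[X] := (C a * X ^ 2 - 1) ^ 2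

/-- the map on the projective line -/
noncomputable def fm (a : ℂ) : PLine → PLine := ratMap 5 (PP a) (QQ a)

/-- the map on the affine line -/
noncomputable def g (a x : ℂ) : ℂ := -(x * (x ^ 2 - a) ^ 2) / (a * x ^ 2 - 1) ^ 2

lemma PP_eval (a x : ℂ) : (PP a).eval x = -(x * (x ^ 2 - a) ^ 2) := by
  simp [PP]

lemma QQ_eval (a x : ℂ) : (QQ a).eval x = (a * x ^ 2 - 1) ^ 2 := by
  simp [QQ]

lemma QQ_natDegree (a : ℂ) : (QQ a).natDegree ≤ 4 := by
  unfold QQ
  refine natDegree_pow_le.trans ?_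
  have : (C a * X ^ 2 - 1 : ℂ[X]).natDegree ≤ 2 := by compute_degree
  omega

lemma QQ_coeff (a : ℂ) : (QQ a).coeff 5 = 0 :=
  coeff_eq_zero_of_natDegree_lt (lt_of_le_of_lt (QQ_natDegree a) (by norm_num))

lemma PP_natDegree (a : ℂ) : (PP a).natDegree = 5 := by
  unfold PP
  rw [natDegree_neg, natDegree_mul X_ne_zero, natDegree_pow, natDegree_X_pow_sub_C, natDegree_X]
  exact pow_ne_zero 2 (X_pow_sub_C_ne_zero (by norm_num) a)

lemma fm_infty (a : ℂ) : fm a OnePoint.infty = OnePoint.infty := by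
  show (if (QQ a).coeff 5 = 0 then OnePoint.infty else _ : PLine) = _
  rw [if_pos (QQ_coeff a)]

lemma fm_coe (a x : ℂ) : fm a (x : PLine) =
    if (a * x ^ 2 - 1) ^ 2 = 0 then OnePoint.infty else ((g a x : ℂ) : PLine) := by
  show (if (QQ a).eval x = 0 then OnePoint.infty else
    (((PP a).eval x / (QQ a).eval x : ℂ) : PLine)) = _
  rw [QQ_eval, PP_eval]
  rfl

lemma fm_coe_of_ne {a x : ℂ} (h : a * x ^ 2 - 1 ≠ 0) : fm a (x : PLine) = ((g a x : ℂ) : PLine) := by
  rw [fm_coe, if_neg (pow_ne_zero 2 h)]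

/-- the point with homogeneous coordinates `(x : y)` -/
noncomputable def pt (x y : ℂ) : PLine := if y = 0 then OnePoint.infty else ((x / y : ℂ) : PLine)

lemma fm_pt (a x y : ℂ) : fm a (pt x y) =
    pt (-(x * (x ^ 2 - a * y ^ 2) ^ 2)) (y * (a * x ^ 2 - y ^ 2) ^ 2) := by
  by_cases hy : y = 0
  · simp [pt, hy, fm_infty]
  · have h1 : pt x y = ((x / y : ℂ) : PLine) := if_neg hy
    rw [h1, fm_coe]
    have h2 : a * (x / y) ^ 2 - 1 = (a * x ^ 2 - y ^ 2) / y ^ 2 := by
      field_simp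
    by_cases h3 : a * x ^ 2 - y ^ 2 = 0
    · rw [h2, h3]
      simp [pt]
    · have h4 : (a * (x / y) ^ 2 - 1) ^ 2 ≠ 0 := by
        rw [h2]
        exact pow_ne_zero 2 (div_ne_zero h3 (pow_ne_zero 2 hy))
      have h5 : y * (a * x ^ 2 - y ^ 2) ^ 2 ≠ 0 := mul_ne_zero hy (pow_ne_zero 2 h3)
      rw [if_neg h4]
      unfold pt
      rw [if_neg h5]
      congr 1
      unfold g
      rw [h2]
      field_simp

lemma exists_pt (p : PLine) : ∃ x y : ℂ, p = pt x y := by
  induction p using OnePoint.rec with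
  | infty => exact ⟨1, 0, by simp [pt]⟩
  | coe x => exact ⟨x, 1, by simp [pt]⟩

variable {a b : ℂ}

lemma comm_aux1 (ha : a ^ 2 = 2 * a - 5) (hb : b = 2 - a) (u v : ℂ) :
    (u - b * v) * (u * (u - b * v) ^ 4 - a * v * (b * u - v) ^ 4) =
      (u - a * v) * (u * (u - a * v) ^ 4 - b * v * (a * u - v) ^ 4) := by
  subst hb
  linear_combination (-2*a^3*u^5*v + 8*a^3*u^4*v^2 - 8*a^3*u^3*v^3 + 2*a^3*u*v^5 + 6*a^2*u^5*v
    - 24*a^2*u^4*v^2 + 24*a^2*u^3*v^3 - 6*a^2*u*v^5 - 2*a*u^5*v + 8*a*u^4*v^2 - 16*a*u^2*v^4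
    + 10*a*u*v^5 - 2*u^5*v + 8*u^4*v^2 - 16*u^3*v^3 + 16*u^2*v^4 - 6*u*v^5) * ha

lemma comm_aux2 (ha : a ^ 2 = 2 * a - 5) (hb : b = 2 - a) (u v : ℂ) :
    (b * u - v) * (a * u * (u - b * v) ^ 4 - v * (b * u - v) ^ 4) =
      (a * u - v) * (b * u * (u - a * v) ^ 4 - v * (a * u - v) ^ 4) := by
  subst hb
  linear_combination (2*a^3*u^5*v - 8*a^3*u^3*v^3 + 8*a^3*u^2*v^4 - 2*a^3*u*v^5 - 6*a^2*u^5*v
    + 24*a^2*u^3*v^3 - 24*a^2*u^2*v^4 + 6*a^2*u*v^5 + 10*a*u^5*v - 16*a*u^4*v^2 + 8*a*u^2*v^4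
    - 2*a*u*v^5 - 6*u^5*v + 16*u^4*v^2 - 16*u^3*v^3 + 8*u^2*v^4 - 2*u*v^5) * ha

lemma fm_comm (ha : a ^ 2 = 2 * a - 5) (hb : b = 2 - a) (p : PLine) :
    fm a (fm b p) = fm b (fm a p) := by
  obtain ⟨x, y, rfl⟩ := exists_pt p
  rw [fm_pt, fm_pt, fm_pt, fm_pt]
  have h1 := comm_aux1 ha hb (x ^ 2) (y ^ 2)
  have h2 := comm_aux2 ha hb (x ^ 2) (y ^ 2)
  congr 1
  · calc _ = x * ((x ^ 2 - b * y ^ 2) * (x ^ 2 * (x ^ 2 - b * y ^ 2) ^ 4 -
          a * y ^ 2 * (b * x ^ 2 - y ^ 2) ^ 4)) ^ 2 := by ring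
      _ = x * ((x ^ 2 - a * y ^ 2) * (x ^ 2 * (x ^ 2 - a * y ^ 2) ^ 4 -
          b * y ^ 2 * (a * x ^ 2 - y ^ 2) ^ 4)) ^ 2 := by rw [h1]
      _ = _ := by ring
  · calc _ = y * ((b * x ^ 2 - y ^ 2) * (a * x ^ 2 * (x ^ 2 - b * y ^ 2) ^ 4 -
          y ^ 2 * (b * x ^ 2 - y ^ 2) ^ 4)) ^ 2 := by ring
      _ = y * ((a * x ^ 2 - y ^ 2) * (b * x ^ 2 * (x ^ 2 - a * y ^ 2) ^ 4 -
          y ^ 2 * (a * x ^ 2 - y ^ 2) ^ 4)) ^ 2 := by rw [h2]
      _ = _ := by ring

lemma a_facts (ha : a ^ 2 = 2 * a - 5) (hb : b = 2 - a) :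
    a ≠ 0 ∧ a ^ 2 ≠ 1 ∧ a ≠ 1 ∧ a * b = 5 ∧ b ^ 2 = 2 * b - 5 ∧ a = 2 - b := by
  have h1 : a ≠ 0 := by
    rintro rfl
    norm_num at ha
  have h2 : a ^ 2 ≠ 1 := by
    intro h
    rw [h] at ha
    have h3 : a = 3 := by linear_combination (-1 / 2 : ℂ) * ha
    rw [h3] at h
    norm_num at h
  refine ⟨h1, h2, ?_, ?_, ?_, ?_⟩
  · rintro rfl
    norm_num at h2
  · rw [hb]; linear_combination -ha
  · rw [hb]; linear_combination ha
  · rw [hb]; ring

lemma coprime_PP_QQ (ha : a ^ 2 = 2 * a - 5) : IsCoprime (PP a) (QQ a) := by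
  have h2 : 1 - a ^ 2 ≠ 0 := by
    have := (a_facts ha rfl).2.1
    intro h
    exact this (by linear_combination -h)
  have h1 : IsCoprime (X : ℂ[X]) (C a * X ^ 2 - 1) := ⟨C a * X, -1, by ring⟩
  have h3 : IsCoprime (X ^ 2 - C a : ℂ[X]) (C a * X ^ 2 - 1) := by
    refine ⟨C (a / (1 - a ^ 2)), -C (1 / (1 - a ^ 2)), ?_⟩
    have e1 : (C (a / (1 - a ^ 2)) : ℂ[X]) = C a * C (1 / (1 - a ^ 2)) := by
      rw [← C_mul]; congr 1; ring
    have e2 : (C (1 / (1 - a ^ 2)) : ℂ[X]) * (1 - C a ^ 2) = 1 := by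
      rw [← C_pow, ← C_1, ← C_sub, ← C_mul]
      congr 1
      field_simp
    rw [e1]
    linear_combination e2
  unfold PP QQ
  exact ((h1.pow_right).mul_left ((h3.pow_left).pow_right)).neg_left

lemma isRational (ha : a ^ 2 = 2 * a - 5) : IsRational 5 (PP a) (QQ a) where
  coprime := coprime_PP_QQ ha
  degP := (PP_natDegree a).le
  degQ := (QQ_natDegree a).trans (by norm_num)
  deg := Or.inl (PP_natDegree a)

lemma root_ne (a w : ℂ) : PP a - C w * QQ a ≠ 0 ∧
    (PP a - C w * QQ a).degree ≠ 0 := by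
  have h1 : (PP a - C w * QQ a).coeff 5 ≠ 0 := by
    rw [coeff_sub, coeff_C_mul, QQ_coeff, mul_zero, sub_zero]
    have : (PP a).coeff 5 = (PP a).leadingCoeff := by
      rw [leadingCoeff, PP_natDegree]
    rw [this]
    refine leadingCoeff_ne_zero.2 fun h => ?_
    have h2 := PP_natDegree a
    rw [h] at h2
    norm_num at h2
  have h2 : 5 ≤ (PP a - C w * QQ a).natDegree := le_natDegree_of_ne_zero h1
  refine ⟨fun h => ?_, fun h => ?_⟩
  · rw [h] at h1; exact h1 (coeff_zero 5)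
  · have := natDegree_eq_of_degree_eq_some (n := 0) (by exact_mod_cast h)
    omega

/-- the map is onto the affine line -/
lemma surj (ha : a ^ 2 = 2 * a - 5) (w : ℂ) : ∃ z : ℂ, a * z ^ 2 - 1 ≠ 0 ∧ g a z = w := by
  obtain ⟨z, hz⟩ := IsAlgClosed.exists_root _ (root_ne a w).2
  have hz' : -(z * (z ^ 2 - a) ^ 2) - w * (a * z ^ 2 - 1) ^ 2 = 0 := by
    have := hz
    rw [IsRoot, eval_sub, eval_mul, eval_C, PP_eval, QQ_eval] at this
    exact this
  have hne : a * z ^ 2 - 1 ≠ 0 := by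
    intro h
    rw [h] at hz'
    have h1 : z * (z ^ 2 - a) ^ 2 = 0 := by linear_combination -hz'
    rcases mul_eq_zero.1 h1 with h2 | h2
    · rw [h2] at h; norm_num at h
    · have h3 : z ^ 2 - a = 0 := by simpa using h2
      have h4 : z ^ 2 = a := by linear_combination h3
      rw [h4] at h
      exact (a_facts ha rfl).2.1 (by linear_combination h)
  refine ⟨z, hne, ?_⟩
  unfold g
  rw [div_eq_iff (pow_ne_zero 2 hne)]
  linear_combination hz'

/-- fibres over affine points are finite -/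
lemma fibre_finite (a w : ℂ) : {p : PLine | fm a p = (w : PLine)}.Finite := by
  have h1 : ((PP a - C w * QQ a).rootSet ℂ).Finite := rootSet_finite _ _
  refine (h1.image (fun z : ℂ => (z : PLine))).subset ?_
  intro p hp
  have hp' : fm a p = (w : PLine) := hp
  induction p using OnePoint.rec with
  | infty =>
    rw [fm_infty] at hp'
    exact absurd hp' (OnePoint.infty_ne_coe w)
  | coe x =>
    rw [fm_coe] at hp'
    by_cases h0 : (a * x ^ 2 - 1) ^ 2 = 0
    · rw [if_pos h0] at hp'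
      exact absurd hp' (OnePoint.infty_ne_coe w)
    · rw [if_neg h0] at hp'
      have h2 : g a x = w := OnePoint.coe_injective hp'
      refine ⟨x, ?_, rfl⟩
      rw [mem_rootSet]
      refine ⟨(root_ne a w).1, ?_⟩
      rw [coe_aeval_eq_eval, eval_sub, eval_mul, eval_C, PP_eval, QQ_eval]
      unfold g at h2
      rw [div_eq_iff h0] at h2
      linear_combination h2

lemma iter_infty (a : ℂ) (n : ℕ) : (fm a)^[n] OnePoint.infty = OnePoint.infty :=
  Function.iterate_fixed (fm_infty a) n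

lemma iter_fibre_finite (a w : ℂ) (n : ℕ) :
    {p : PLine | (fm a)^[n] p = (w : PLine)}.Finite := by
  induction n with
  | zero =>
    refine (Set.finite_singleton (w : PLine)).subset ?_
    intro p hp
    exact hp
  | succ n ih =>
    refine (Set.Finite.biUnion ih (t := fun q => {p : PLine | fm a p = q ∧ q ≠ OnePoint.infty})
      ?_).subset ?_
    · intro q _
      induction q using OnePoint.rec with
      | infty => exact Set.finite_empty.subset (fun p hp => absurd rfl hp.2)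
      | coe x => exact (fibre_finite a x).subset (fun p hp => hp.1)
    · intro p hp
      have hp' : (fm a)^[n + 1] p = (w : PLine) := hp
      rw [Function.iterate_succ_apply] at hp'
      simp only [Set.mem_iUnion]
      refine ⟨fm a p, hp', rfl, ?_⟩
      intro h
      rw [h, iter_infty] at hp'
      exact OnePoint.infty_ne_coe w hp'

lemma fm_zero (a : ℂ) : fm a ((0 : ℂ) : PLine) = ((0 : ℂ) : PLine) := by
  have h : a * (0 : ℂ) ^ 2 - 1 ≠ 0 := by norm_num
  rw [fm_coe_of_ne h]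
  simp [g]

lemma fm_root {r : ℂ} (ha : a ^ 2 = 2 * a - 5) (hr : r ^ 2 = a) :
    a * r ^ 2 - 1 ≠ 0 ∧ fm a (r : PLine) = ((0 : ℂ) : PLine) := by
  have h : a * r ^ 2 - 1 ≠ 0 := by
    rw [hr]
    intro h
    exact (a_facts ha rfl).2.1 (by linear_combination h)
  refine ⟨h, ?_⟩
  rw [fm_coe_of_ne h]
  simp [g, hr]

lemma fm_root' {r : ℂ} (ha : a ^ 2 = 2 * a - 5) (hb : b = 2 - a) (hr : r ^ 2 = a) :
    fm b (r : PLine) = (r : PLine) := by
  have hab : a * b = 5 := (a_facts ha hb).2.2.2.1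
  have h : b * r ^ 2 - 1 = 4 := by
    rw [hr]; linear_combination hab
  have h' : b * r ^ 2 - 1 ≠ 0 := by rw [h]; norm_num
  rw [fm_coe_of_ne h']
  congr 1
  unfold g
  rw [h, hr, hb]
  linear_combination (-r / 4) * ha

/-- the set `{0, 1, -1}` -/
def TT : Set PLine := {((0 : ℂ) : PLine), ((1 : ℂ) : PLine), ((-1 : ℂ) : PLine)}

lemma fm_TT (ha : a ^ 2 = 2 * a - 5) {p : PLine} (hp : p ∈ TT) : fm a p ∈ TT := by
  have h1 : a - 1 ≠ 0 := sub_ne_zero.2 (a_facts ha rfl).2.2.1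
  rcases hp with rfl | rfl | rfl
  · left; exact fm_zero a
  · right; right
    have h : a * (1 : ℂ) ^ 2 - 1 ≠ 0 := by simpa using h1
    show fm a ((1 : ℂ) : PLine) = ((-1 : ℂ) : PLine)
    rw [fm_coe_of_ne h]
    congr 1
    unfold g
    have : (1 : ℂ) ^ 2 - a = -(a - 1) := by ring
    rw [this]
    field_simp
  · right; left
    have h : a * (-1 : ℂ) ^ 2 - 1 ≠ 0 := by simpa using h1
    show fm a ((-1 : ℂ) : PLine) = ((1 : ℂ) : PLine)
    rw [fm_coe_of_ne h]
    congr 1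
    unfold g
    have : (-1 : ℂ) ^ 2 - a = -(a - 1) := by ring
    rw [this]
    have h2 : a * (-1 : ℂ) ^ 2 - 1 = a - 1 := by ring
    rw [h2]
    field_simp

lemma iter_TT (ha : a ^ 2 = 2 * a - 5) {p : PLine} (hp : p ∈ TT) (n : ℕ) :
    (fm a)^[n] p ∈ TT := by
  induction n with
  | zero => exact hp
  | succ n ih => rw [Function.iterate_succ_apply']; exact fm_TT ha ih

lemma root_not_TT {r : ℂ} (ha : a ^ 2 = 2 * a - 5) (hr : r ^ 2 = a) : (r : PLine) ∉ TT := by
  obtain ⟨h0, h1, h2, -⟩ := a_facts ha rfl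
  rintro (h | h | h)
  · have := OnePoint.coe_injective h
    rw [this] at hr
    exact h0 (by rw [← hr]; norm_num)
  · have := OnePoint.coe_injective h
    rw [this] at hr
    exact h2 (by rw [← hr]; norm_num)
  · have := OnePoint.coe_injective h
    rw [this] at hr
    exact h2 (by rw [← hr]; norm_num)

/-- derivative of the affine map -/
noncomputable def gd (a x : ℂ) : ℂ :=
  -((x ^ 2 - a) * ((5 * x ^ 2 - a) * (a * x ^ 2 - 1) - 4 * a * x ^ 2 * (x ^ 2 - a))) /
    (a * x ^ 2 - 1) ^ 3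

lemma hasDerivAt_g {x : ℂ} (h : a * x ^ 2 - 1 ≠ 0) : HasDerivAt (g a) (gd a x) x := by
  have h1 : HasDerivAt (fun x : ℂ => x ^ 2 - a) (2 * x) x := by
    simpa using (hasDerivAt_pow 2 x).sub_const a
  have h2 : HasDerivAt (fun x : ℂ => a * x ^ 2 - 1) (a * (2 * x)) x := by
    simpa using ((hasDerivAt_pow 2 x).const_mul a).sub_const 1
  have h3 : HasDerivAt (fun x : ℂ => -(x * (x ^ 2 - a) ^ 2))
      (-(1 * (x ^ 2 - a) ^ 2 + x * (2 * (x ^ 2 - a) * (2 * x)))) x := by
    have h0 : HasDerivAt (fun x : ℂ => x) 1 x := hasDerivAt_id x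
    refine ((h0.fun_mul (h1.fun_pow 2)).fun_neg).congr_deriv ?_
    push_cast
    ring
  have h4 : HasDerivAt (fun x : ℂ => (a * x ^ 2 - 1) ^ 2)
      (2 * (a * x ^ 2 - 1) * (a * (2 * x))) x := by
    refine (h2.fun_pow 2).congr_deriv ?_
    push_cast
    ring
  have h5 := h3.div h4 (pow_ne_zero 2 h)
  refine h5.congr_deriv ?_
  unfold gd
  rw [div_eq_div_iff (pow_ne_zero 2 (pow_ne_zero 2 h)) (pow_ne_zero 3 h)]
  ring

lemma gd_root {r : ℂ} (hr : r ^ 2 = a) : gd a r = 0 := by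
  simp [gd, hr]

/-- critical values are `0`, `1`, `-1` -/
lemma crit (ha : a ^ 2 = 2 * a - 5) {x : ℂ} (h : a * x ^ 2 - 1 ≠ 0) (hx : gd a x = 0) :
    ((g a x : ℂ) : PLine) ∈ TT := by
  have ha0 : a ≠ 0 := (a_facts ha rfl).1
  unfold gd at hx
  rw [div_eq_zero_iff] at hx
  rcases hx with hx | hx
  · rw [neg_eq_zero, mul_eq_zero] at hx
    rcases hx with hx | hx
    · left
      show ((g a x : ℂ) : PLine) = ((0 : ℂ) : PLine)
      congr 1
      simp [g, hx]
    · have h1 : (5 * x ^ 2 - a) * (a * x ^ 2 - 1) - 4 * a * x ^ 2 * (x ^ 2 - a) =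
          a * ((x ^ 2) ^ 2 + (4 * a - 2) * x ^ 2 + 1) := by
        linear_combination (-x ^ 2) * ha
      rw [h1, mul_eq_zero] at hx
      have hx' : (x ^ 2) ^ 2 + (4 * a - 2) * x ^ 2 + 1 = 0 := hx.resolve_left ha0
      have h2 : x ^ 2 * (x ^ 2 - a) ^ 4 - (a * x ^ 2 - 1) ^ 4 =
          (x ^ 2 - 1) * ((x ^ 2) ^ 2 + (4 * a - 2) * x ^ 2 + 1) ^ 2 := by
        linear_combination (-1*a^2*(x^2)^4 + 1*a^2*(x^2) - 2*a*(x^2)^4 + 4*a*(x^2)^3 - 4*a*(x^2)^2
          + 2*a*(x^2) + 1*(x^2)^4 - 2*(x^2)^3 + 2*(x^2)^2 - 1*(x^2)) * ha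
      rw [hx'] at h2
      have h3 : g a x ^ 2 = 1 := by
        unfold g
        rw [div_pow, div_eq_one_iff_eq (pow_ne_zero 2 (pow_ne_zero 2 h))]
        linear_combination h2
      have h4 : (g a x - 1) * (g a x + 1) = 0 := by linear_combination h3
      rcases mul_eq_zero.1 h4 with h5 | h5
      · right; left
        have : g a x = 1 := by linear_combination h5
        rw [this]
      · right; right
        have : g a x = -1 := by linear_combination h5
        show ((g a x : ℂ) : PLine) = ((-1 : ℂ) : PLine)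
        rw [this]
  · exact absurd hx (pow_ne_zero 3 h)

end Map

section Main

variable {a b r : ℂ}

lemma fm_step {x y : ℂ} (h : fm a (x : PLine) = (y : PLine)) : a * x ^ 2 - 1 ≠ 0 ∧ g a x = y := by
  by_cases h0 : a * x ^ 2 - 1 = 0
  · rw [fm_coe, h0] at h
    simp at h
  · rw [fm_coe_of_ne h0] at h
    exact ⟨h0, OnePoint.coe_injective h⟩

/-- `z` is a backward orbit of `r` -/
structure Back (a r : ℂ) (z : ℕ → ℂ) : Prop where
  zero : z 0 = r
  succ : ∀ n, fm a (z (n + 1) : PLine) = (z n : PLine)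

lemma exists_back (ha : a ^ 2 = 2 * a - 5) (r : ℂ) : ∃ z : ℕ → ℂ, Back a r z := by
  choose s hs1 hs2 using surj ha
  refine ⟨fun n => Nat.rec r (fun _ w => s w) n, rfl, fun n => ?_⟩
  rw [fm_coe_of_ne (hs1 _)]
  exact congrArg _ (hs2 _)

lemma Back.iter {z : ℕ → ℂ} (hz : Back a r z) (n k : ℕ) :
    (fm a)^[k] (z (n + k) : PLine) = (z n : PLine) := by
  induction k with
  | zero => rfl
  | succ k ih =>
    rw [Function.iterate_succ_apply, ← add_assoc, hz.succ]
    exact ih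

lemma Back.iter' {z : ℕ → ℂ} (hz : Back a r z) (n : ℕ) :
    (fm a)^[n] (z n : PLine) = (r : PLine) := by
  have := hz.iter 0 n
  rw [zero_add, hz.zero] at this
  exact this

lemma iter_zero (a : ℂ) (n : ℕ) : (fm a)^[n] ((0 : ℂ) : PLine) = ((0 : ℂ) : PLine) :=
  Function.iterate_fixed (fm_zero a) n

lemma r_ne (ha : a ^ 2 = 2 * a - 5) (hr : r ^ 2 = a) : r ≠ 0 := by
  rintro rfl
  exact (a_facts ha rfl).1 (by rw [← hr]; norm_num)

lemma Back.iter_succ {z : ℕ → ℂ} (hz : Back a r z) (ha : a ^ 2 = 2 * a - 5) (hr : r ^ 2 = a)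
    (n : ℕ) : (fm a)^[n + 1] (z n : PLine) = ((0 : ℂ) : PLine) := by
  rw [Function.iterate_succ_apply', hz.iter', (fm_root ha hr).2]

lemma Back.ne_zero {z : ℕ → ℂ} (hz : Back a r z) (ha : a ^ 2 = 2 * a - 5) (hr : r ^ 2 = a)
    (n : ℕ) : z n ≠ 0 := by
  intro h
  have h1 := hz.iter' n
  rw [h, iter_zero] at h1
  exact r_ne ha hr (OnePoint.coe_injective h1).symm

lemma Back.ne_root {z : ℕ → ℂ} (hz : Back a r z) (ha : a ^ 2 = 2 * a - 5) (hr : r ^ 2 = a)
    (n : ℕ) : z (n + 1) ≠ r := by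
  intro h
  have h1 := hz.succ n
  rw [h, (fm_root ha hr).2] at h1
  exact hz.ne_zero ha hr n (OnePoint.coe_injective h1).symm

lemma Back.injective {z : ℕ → ℂ} (hz : Back a r z) (ha : a ^ 2 = 2 * a - 5) (hr : r ^ 2 = a) :
    Function.Injective z := by
  have key : ∀ i j : ℕ, z i ≠ z (j + 1 + i) := by
    intro i j h
    have h1 := hz.iter (j + 1) i
    rw [← h, hz.iter'] at h1
    exact hz.ne_root ha hr j (OnePoint.coe_injective h1).symm
  intro i j hij
  rcases lt_trichotomy i j with h | h | h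
  · obtain ⟨k, rfl⟩ := Nat.exists_eq_add_of_lt h
    have := key i k
    rw [show k + 1 + i = i + k + 1 by ring] at this
    exact absurd hij this
  · exact h
  · obtain ⟨k, rfl⟩ := Nat.exists_eq_add_of_lt h
    have := key j k
    rw [show k + 1 + j = j + k + 1 by ring] at this
    exact absurd hij.symm this

lemma dense_of_injective {z : ℕ → ℂ} (hz : Function.Injective z) :
    DenseInDiag (Set.range fun n => (z n, z n)) := by
  intro G hG w
  have hp : ∀ t : ℂ, (MvPolynomial.aeval (fun _ : Fin 2 => (X : ℂ[X])) G).eval t =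
      MvPolynomial.eval ![t, t] G := by
    intro t
    induction G using MvPolynomial.induction_on with
    | C c => simp
    | add p q hp hq =>
      have hp' := hp
      have hq' := hq
      clear hp hq
      have e1 : ∀ P : MvPolynomial (Fin 2) ℂ,
          (MvPolynomial.aeval (fun _ : Fin 2 => (X : ℂ[X])) P).eval t =
            MvPolynomial.eval ![t, t] P := by
        intro P
        induction P using MvPolynomial.induction_on with
        | C c => simp
        | add p q hp hq => rw [map_add, eval_add, map_add, hp, hq]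
        | mul_X p i hp =>
          rw [map_mul, eval_mul, map_mul, hp]
          congr 1
          fin_cases i <;> simp
      exact e1 _
    | mul_X p i hp =>
      have e1 : ∀ P : MvPolynomial (Fin 2) ℂ,
          (MvPolynomial.aeval (fun _ : Fin 2 => (X : ℂ[X])) P).eval t =
            MvPolynomial.eval ![t, t] P := by
        intro P
        induction P using MvPolynomial.induction_on with
        | C c => simp
        | add p q hp hq => rw [map_add, eval_add, map_add, hp, hq]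
        | mul_X p i hp =>
          rw [map_mul, eval_mul, map_mul, hp]
          congr 1
          fin_cases i <;> simp
      exact e1 _
  have h0 : MvPolynomial.aeval (fun _ : Fin 2 => (X : ℂ[X])) G = 0 := by
    refine Polynomial.eq_zero_of_infinite_isRoot _ ?_
    refine (Set.infinite_range_of_injective hz).mono ?_
    rintro _ ⟨n, rfl⟩
    show IsRoot _ (z n)
    rw [IsRoot, hp]
    exact hG (z n, z n) ⟨n, rfl⟩
  rw [← hp w, h0, eval_zero]

lemma commute (ha : a ^ 2 = 2 * a - 5) (hb : b = 2 - a) (i j : ℕ) (p : PLine) :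
    (fm a)^[i] ((fm b)^[j] p) = (fm b)^[j] ((fm a)^[i] p) := by
  have h : Function.Commute (fm a) (fm b) := fun p => fm_comm ha hb p
  exact (h.iterate_iterate i j) p

lemma iter_b_root (ha : a ^ 2 = 2 * a - 5) (hb : b = 2 - a) (hr : r ^ 2 = a) (k : ℕ) :
    (fm b)^[k] (r : PLine) = (r : PLine) :=
  Function.iterate_fixed (fm_root' ha hb hr) k

lemma exists_coe {p : PLine} (h : p ≠ OnePoint.infty) : ∃ x : ℂ, p = (x : PLine) := by
  induction p using OnePoint.rec with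
  | infty => exact absurd rfl h
  | coe x => exact ⟨x, rfl⟩

lemma splitMap_eq (a b : ℂ) : splitMap 5 (PP a) (QQ a) (PP b) (QQ b) = Prod.map (fm a) (fm b) := rfl

lemma split_iter (a b : ℂ) (k : ℕ) (p : PLine × PLine) :
    (splitMap 5 (PP a) (QQ a) (PP b) (QQ b))^[k] p = ((fm a)^[k] p.1, (fm b)^[k] p.2) := by
  rw [splitMap_eq, Prod.map_iterate]
  rfl

lemma not_preperiodic (ha : a ^ 2 = 2 * a - 5) (hb : b = 2 - a) (hr : r ^ 2 = a) {z : ℕ → ℂ}
    (hz : Back a r z) (m n : ℕ) (hn : 1 ≤ n) :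
    (splitMap 5 (PP a) (QQ a) (PP b) (QQ b))^[m + n] '' Diag ≠
      (splitMap 5 (PP a) (QQ a) (PP b) (QQ b))^[m] '' Diag := by
  intro h
  obtain ⟨k, rfl⟩ : ∃ k, n = k + 1 := ⟨n - 1, by omega⟩
  have hmem : (splitMap 5 (PP a) (QQ a) (PP b) (QQ b))^[m + (k + 1)]
      ((z (k + m) : PLine), (z (k + m) : PLine)) ∈
      (splitMap 5 (PP a) (QQ a) (PP b) (QQ b))^[m] '' Diag := by
    rw [← h]
    exact ⟨_, rfl, rfl⟩
  obtain ⟨⟨w, w'⟩, hw, hw2⟩ := hmem
  have hww : w = w' := hw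
  subst hww
  rw [split_iter, split_iter] at hw2
  have h1 : (fm a)^[m] w = (fm a)^[m + (k + 1)] (z (k + m) : PLine) := congrArg Prod.fst hw2
  have h2 : (fm b)^[m] w = (fm b)^[m + (k + 1)] (z (k + m) : PLine) := congrArg Prod.snd hw2
  have h3 : (fm a)^[m + (k + 1)] (z (k + m) : PLine) = ((0 : ℂ) : PLine) := by
    rw [show m + (k + 1) = (k + m) + 1 by ring]
    exact hz.iter_succ ha hr _
  rw [h3] at h1
  have h4 : (fm a)^[m] ((fm b)^[m] w) = ((0 : ℂ) : PLine) := by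
    rw [commute ha hb, h1, iter_zero]
  rw [h2, commute ha hb, hz.iter k m] at h4
  have h5 : (fm a)^[k] ((fm b)^[m + (k + 1)] (z k : PLine)) = (r : PLine) := by
    rw [commute ha hb, hz.iter', iter_b_root ha hb hr]
  rw [h4, iter_zero] at h5
  exact r_ne ha hr (OnePoint.coe_injective h5).symm

lemma hasDiff {x y : ℂ} (hx : a * x ^ 2 - 1 ≠ 0) (hy : b * y ^ 2 - 1 ≠ 0) :
    HasDifferential (splitMap 5 (PP a) (QQ a) (PP b) (QQ b)) (x, y) (g a x, g b y)
      ((ContinuousLinearMap.toSpanSingleton ℂ (gd a x)).prodMap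
        (ContinuousLinearMap.toSpanSingleton ℂ (gd b y))) := by
  refine ⟨Prod.map (g a) (g b), ?_, rfl, ?_⟩
  · have h1 : ∀ᶠ s : ℂ × ℂ in 𝓝 (x, y), a * s.1 ^ 2 - 1 ≠ 0 := by
      have hc : Continuous (fun s : ℂ × ℂ => a * s.1 ^ 2 - 1) := by fun_prop
      exact hc.continuousAt.eventually_ne hx
    have h2 : ∀ᶠ s : ℂ × ℂ in 𝓝 (x, y), b * s.2 ^ 2 - 1 ≠ 0 := by
      have hc : Continuous (fun s : ℂ × ℂ => b * s.2 ^ 2 - 1) := by fun_prop
      exact hc.continuousAt.eventually_ne hy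
    filter_upwards [h1, h2] with s hs1 hs2
    rw [splitMap_eq]
    show (fm a (s.1 : PLine), fm b (s.2 : PLine)) = _
    rw [fm_coe_of_ne hs1, fm_coe_of_ne hs2]
    rfl
  · exact (hasDerivAt_g hx).hasFDerivAt.prodMap (x, y) (hasDerivAt_g hy).hasFDerivAt

lemma map_span (c d A B : ℂ) :
    (Submodule.span ℂ {((A, B) : ℂ × ℂ)}).map
      (((ContinuousLinearMap.toSpanSingleton ℂ c).prodMap
        (ContinuousLinearMap.toSpanSingleton ℂ d) : ℂ × ℂ →L[ℂ] ℂ × ℂ) : ℂ × ℂ →ₗ[ℂ] ℂ × ℂ) =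
      Submodule.span ℂ {((A * c, B * d) : ℂ × ℂ)} := by
  rw [Submodule.map_span, Set.image_singleton]
  congr 2

theorem main (ha : a ^ 2 = 2 * a - 5) (hb : b = 2 - a) (hr : r ^ 2 = a) {z : ℕ → ℂ}
    (hz : Back a r z) (n : ℕ) :
    Preperiodic (splitMap 5 (PP a) (QQ a) (PP b) (QQ b)) (chart (z n, z n)) ∧
    TangentPreperiodic (splitMap 5 (PP a) (QQ a) (PP b) (QQ b)) 1 (z n, z n)
      (Submodule.span ℂ {((1, 1) : ℂ × ℂ)}) := by
  have hb2 : b ^ 2 = 2 * b - 5 := (a_facts ha hb).2.2.2.2.1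
  have hU : ∀ k, (fm a)^[n + 1] ((fm a)^[k] (z n : PLine)) = ((0 : ℂ) : PLine) := by
    intro k
    rw [← Function.iterate_add_apply, add_comm, Function.iterate_add_apply,
      hz.iter_succ ha hr, iter_zero]
  have hV : ∀ k, (fm a)^[n] ((fm b)^[k] (z n : PLine)) = (r : PLine) := by
    intro k
    rw [commute ha hb, hz.iter', iter_b_root ha hb hr]
  have hu : ∀ k, ∃ u : ℂ, (fm a)^[k] (z n : PLine) = (u : PLine) := by
    intro k
    refine exists_coe fun h => ?_
    have := hU k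
    rw [h, iter_infty] at this
    exact OnePoint.infty_ne_coe _ this
  have hv : ∀ k, ∃ v : ℂ, (fm b)^[k] (z n : PLine) = (v : PLine) := by
    intro k
    refine exists_coe fun h => ?_
    have := hV k
    rw [h, iter_infty] at this
    exact OnePoint.infty_ne_coe _ this
  choose u hu using hu
  choose v hv using hv
  have hu0 : u 0 = z n := (OnePoint.coe_injective (hu 0)).symm
  have hv0 : v 0 = z n := (OnePoint.coe_injective (hv 0)).symm
  have hus : ∀ k, a * u k ^ 2 - 1 ≠ 0 ∧ g a (u k) = u (k + 1) := by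
    intro k
    apply fm_step
    rw [← hu k, ← hu (k + 1), Function.iterate_succ_apply']
  have hvs : ∀ k, b * v k ^ 2 - 1 ≠ 0 ∧ g b (v k) = v (k + 1) := by
    intro k
    apply fm_step
    rw [← hv k, ← hv (k + 1), Function.iterate_succ_apply']
  have hun : u n = r := by
    have := hu n
    rw [hz.iter'] at this
    exact (OnePoint.coe_injective this).symm
  have hvd : ∀ k, gd b (v k) ≠ 0 := by
    intro k h0
    have h1 := crit hb2 (hvs k).1 h0
    rw [(hvs k).2, ← hv (k + 1)] at h1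
    have h2 := iter_TT ha h1 n
    rw [hV] at h2
    exact root_not_TT ha hr h2
  -- finiteness
  have hfinU : {p : PLine | (fm a)^[n + 1] p = ((0 : ℂ) : PLine)}.Finite :=
    iter_fibre_finite a 0 (n + 1)
  have hfinV : {p : PLine | (fm a)^[n] p = (r : PLine)}.Finite := iter_fibre_finite a r n
  refine ⟨?_, ?_⟩
  · refine (hfinU.prod hfinV).subset ?_
    rintro _ ⟨k, rfl⟩
    show (splitMap 5 (PP a) (QQ a) (PP b) (QQ b))^[k] (chart (z n, z n)) ∈ _
    rw [split_iter]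
    exact ⟨hU k, hV k⟩
  · let A : ℕ → ℂ := fun k => ∏ j ∈ Finset.range k, gd a (u j)
    let B : ℕ → ℂ := fun k => ∏ j ∈ Finset.range k, gd b (v j)
    have hB : ∀ k, B k ≠ 0 := fun k => Finset.prod_ne_zero_iff.2 fun j _ => hvd j
    have hA : ∀ k, n < k → A k = 0 := by
      intro k hk
      refine Finset.prod_eq_zero (Finset.mem_range.2 hk) ?_
      rw [hun]
      exact gd_root hr
    refine ⟨fun k => (u k, v k), fun k => (ContinuousLinearMap.toSpanSingleton ℂ (gd a (u k))).prodMap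
      (ContinuousLinearMap.toSpanSingleton ℂ (gd b (v k))),
      fun k => Submodule.span ℂ {((A k, B k) : ℂ × ℂ)}, ?_, ?_, ?_, ?_⟩
    · show (u 0, v 0) = _
      rw [hu0, hv0]
    · simp [A, B]
    · intro k
      refine ⟨?_, ?_, ?_⟩
      · have := hasDiff (a := a) (b := b) (hus k).1 (hvs k).1
        rw [(hus k).2, (hvs k).2] at this
        exact this
      · show Submodule.span ℂ {((A (k + 1), B (k + 1)) : ℂ × ℂ)} = _
        rw [map_span]
        simp only [A, B, Finset.prod_range_succ]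
      · refine finrank_span_singleton ?_
        intro h
        exact hB k (congrArg Prod.snd h)
    · have hfin1 : {s : ℂ × ℂ | (fm a)^[n + 1] (s.1 : PLine) = ((0 : ℂ) : PLine) ∧
          (fm a)^[n] (s.2 : PLine) = (r : PLine)}.Finite := by
        have h1 := hfinU.preimage (f := fun x : ℂ => (x : PLine))
          (OnePoint.coe_injective.injOn)
        have h2 := hfinV.preimage (f := fun x : ℂ => (x : PLine))
          (OnePoint.coe_injective.injOn)
        exact (h1.prod h2).subset (fun s hs => ⟨hs.1, hs.2⟩)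
      have hfin2 : (insert (Submodule.span ℂ {((0, 1) : ℂ × ℂ)})
          ((fun k => Submodule.span ℂ {((A k, B k) : ℂ × ℂ)}) '' Set.Iic n)).Finite :=
        ((Set.finite_Iic n).image _).insert _
      refine (hfin1.prod hfin2).subset ?_
      rintro _ ⟨k, rfl⟩
      refine ⟨⟨?_, ?_⟩, ?_⟩
      · show (fm a)^[n + 1] (u k : PLine) = _
        rw [← hu k]; exact hU k
      · show (fm a)^[n] (v k : PLine) = _
        rw [← hv k]; exact hV k
      · show Submodule.span ℂ {((A k, B k) : ℂ × ℂ)} ∈ _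
        rcases le_or_gt k n with hk | hk
        · exact Or.inr ⟨k, hk, rfl⟩
        · left
          rw [hA k hk]
          have : ((0, B k) : ℂ × ℂ) = B k • ((0, 1) : ℂ × ℂ) := by simp
          rw [this]
          exact Submodule.span_singleton_smul_eq (IsUnit.mk0 _ (hB k)) _

end Main

/-- A polarizable split map of `ℙ¹ × ℙ¹` for which the diagonal is not preperiodic although it
contains a Zariski dense set of preperiodic points at which its tangent line is preperiodic. -/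
theorem result : ∃ (d : ℕ) (P₁ Q₁ P₂ Q₂ : ℂ[X]), 2 ≤ d ∧ IsRational d P₁ Q₁ ∧ IsRational d P₂ Q₂ ∧
    (∀ m n : ℕ, 1 ≤ n → (splitMap d P₁ Q₁ P₂ Q₂)^[m + n] '' Diag ≠
      (splitMap d P₁ Q₁ P₂ Q₂)^[m] '' Diag) ∧
    ∃ S : Set (ℂ × ℂ), (∀ s ∈ S, chart s ∈ Diag) ∧ DenseInDiag S ∧
      ∀ s ∈ S, Preperiodic (splitMap d P₁ Q₁ P₂ Q₂) (chart s) ∧
        TangentPreperiodic (splitMap d P₁ Q₁ P₂ Q₂) 1 s (Submodule.span ℂ {((1, 1) : ℂ × ℂ)}) := by
  obtain ⟨a, ha⟩ : ∃ a : ℂ, a ^ 2 = 2 * a - 5 := ⟨1 + 2 * Complex.I, by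
    linear_combination (4 : ℂ) * Complex.I_sq⟩
  obtain ⟨r, hr⟩ : ∃ r : ℂ, r ^ 2 = a := IsAlgClosed.exists_pow_nat_eq a (by norm_num)
  obtain ⟨z, hz⟩ := exists_back ha r
  refine ⟨5, PP a, QQ a, PP (2 - a), QQ (2 - a), by norm_num, isRational ha,
    isRational (a_facts ha rfl).2.2.2.2.1, fun m n hn => not_preperiodic ha rfl hr hz m n hn,
    Set.range fun n => (z n, z n), ?_, dense_of_injective (hz.injective ha hr), ?_⟩
  · rintro _ ⟨n, rfl⟩
    rfl
  · rintro _ ⟨n, rfl⟩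
    exact main ha rfl hr hz n

end Pool.Agent.Results.MP_0a826e_ag.LattesDiagonal
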